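import Pool.Agent.H61.UC.Defs

/-!
Balls in graphs, rooted isomorphisms of balls (problem MP_1644eb_al).
-/

open Set Filter Topology

namespace Pool.Agent.H61.UC

variable {V W Y : Type*} {G : SimpleGraph V} {X : SimpleGraph W} {Z : SimpleGraph Y}

theorem mem_ball_self (v : V) (r : ℕ) : v ∈ ball G v r := ⟨SimpleGraph.Walk.nil, by simp⟩

theorem ball_zero (v : V) : ball G v 0 = {v} := by
  ext u
  constructor
  · rintro ⟨p, hp⟩
    have h0 : p.length = 0 := Nat.le_zero.1 hp
    exact (SimpleGraph.Walk.eq_of_length_eq_zero h0).symm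
  · intro h
    rw [mem_singleton_iff] at h
    rw [h]
    exact mem_ball_self v 0

theorem ball_mono {v : V} {r s : ℕ} (h : r ≤ s) : ball G v r ⊆ ball G v s := by
  rintro u ⟨p, hp⟩
  exact ⟨p, hp.trans h⟩

theorem ball_symm {v u : V} {r : ℕ} (h : u ∈ ball G v r) : v ∈ ball G u r := by
  obtain ⟨p, hp⟩ := h
  exact ⟨p.reverse, by rw [SimpleGraph.Walk.length_reverse]; exact hp⟩

theorem ball_trans {v u w : V} {r s : ℕ} (h : u ∈ ball G v r) (h' : w ∈ ball G u s) :
    w ∈ ball G v (r + s) := by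
  obtain ⟨p, hp⟩ := h
  obtain ⟨q, hq⟩ := h'
  refine ⟨p.append q, ?_⟩
  rw [SimpleGraph.Walk.length_append]
  omega

theorem adj_ball {v u : V} (h : G.Adj v u) : u ∈ ball G v 1 :=
  ⟨SimpleGraph.Walk.cons h SimpleGraph.Walk.nil, by simp⟩

theorem mem_ball_succ {v u : V} {n : ℕ} :
    u ∈ ball G v (n + 1) ↔ ∃ w ∈ ball G v n, u = w ∨ G.Adj w u := by
  constructor
  · intro h
    have h' := ball_symm h
    obtain ⟨p, hp⟩ := h'
    cases p with
    | nil => exact ⟨_, mem_ball_self _ _, Or.inl rfl⟩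
    | @cons _ w _ hadj q =>
      refine ⟨w, ball_symm (v := w) (u := v) ⟨q, ?_⟩, Or.inr hadj.symm⟩
      rw [SimpleGraph.Walk.length_cons] at hp
      omega
  · rintro ⟨w, hw, rfl | h⟩
    · exact ball_mono (by omega) hw
    · exact ball_trans hw (adj_ball h)

theorem mem_ball_succ' {v u : V} {n : ℕ} :
    u ∈ ball G v (n + 1) ↔ ∃ w ∈ ball G v 1, u ∈ ball G w n := by
  constructor
  · intro h
    obtain ⟨p, hp⟩ := h
    cases p with
    | nil => exact ⟨v, mem_ball_self _ _, mem_ball_self _ _⟩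
    | @cons _ w _ hadj q =>
      refine ⟨w, adj_ball hadj, ⟨q, ?_⟩⟩
      rw [SimpleGraph.Walk.length_cons] at hp
      omega
  · rintro ⟨w, hw, h⟩
    have := ball_trans hw h
    rwa [add_comm] at this

/-- `f` restricts to a rooted isomorphism of the balls of radius `r`. -/
def BI (X : SimpleGraph W) (o : W) (r : ℕ) (G : SimpleGraph V) (v : V) (f : W → V) : Prop :=
  f o = v ∧ InjOn f (ball X o r) ∧
    (∀ x ∈ ball X o r, ∀ y ∈ ball X o r, (X.Adj x y ↔ G.Adj (f x) (f y))) ∧
    f '' ball X o r = ball G v r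

/-- images of small balls -/
theorem BI.image {o : W} {v : V} {R : ℕ} {f : W → V} (h : BI X o R G v f) {z : W} {L : ℕ}
    (hz : z ∈ ball X o L) (hfz : f z ∈ ball G v L) (n : ℕ) (hn : L + n ≤ R) :
    f '' ball X z n = ball G (f z) n := by
  obtain ⟨h1, h2, h3, h4⟩ := h
  induction n with
  | zero => rw [ball_zero, ball_zero, image_singleton]
  | succ n ih =>
    have ih' := ih (by omega)
    have hsub : ball X z (n + 1) ⊆ ball X o R := fun x hx =>
      ball_mono hn (ball_trans hz hx)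
    ext u
    constructor
    · rintro ⟨x, hx, rfl⟩
      obtain ⟨w, hw, hwx⟩ := mem_ball_succ.1 hx
      have hw' : f w ∈ ball G (f z) n := by rw [← ih']; exact mem_image_of_mem f hw
      refine mem_ball_succ.2 ⟨f w, hw', ?_⟩
      rcases hwx with rfl | hwx
      · exact Or.inl rfl
      · exact Or.inr ((h3 w (hsub (ball_mono (by omega) hw)) x (hsub hx)).1 hwx)
    · intro hu
      obtain ⟨w, hw, hwu⟩ := mem_ball_succ.1 hu
      rw [← ih'] at hw
      obtain ⟨x, hx, rfl⟩ := hw
      have huR : u ∈ ball G v R := ball_mono hn (ball_trans hfz hu)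
      rw [← h4] at huR
      obtain ⟨y, hy, rfl⟩ := huR
      rcases hwu with hwu | hwu
      · have hxy : y = x := h2 hy (hsub (ball_mono (by omega) hx)) hwu
        rw [hxy]
        exact ⟨x, ball_mono (by omega) hx, rfl⟩
      · have hxy := (h3 x (hsub (ball_mono (by omega) hx)) y hy).2 hwu
        exact ⟨y, mem_ball_succ.2 ⟨x, hx, Or.inr hxy⟩, rfl⟩

theorem BI.image0 {o : W} {v : V} {R : ℕ} {f : W → V} (h : BI X o R G v f) (n : ℕ)
    (hn : n ≤ R) : f '' ball X o n = ball G v n := by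
  have h0 : f o ∈ ball G v 0 := by rw [h.1]; exact mem_ball_self v 0
  have := h.image (mem_ball_self o 0) h0 n (by omega)
  rwa [h.1] at this

theorem BI.mono {o : W} {v : V} {R n : ℕ} {f : W → V} (h : BI X o R G v f) (hn : n ≤ R) :
    BI X o n G v f :=
  ⟨h.1, h.2.1.mono (ball_mono hn), fun x hx y hy => h.2.2.1 x (ball_mono hn hx) y
    (ball_mono hn hy), h.image0 n hn⟩

theorem BI.mem {o : W} {v : V} {R : ℕ} {f : W → V} (h : BI X o R G v f) {z : W} {L : ℕ}
    (hL : L ≤ R) (hz : z ∈ ball X o L) : f z ∈ ball G v L := by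
  rw [← h.image0 L hL]
  exact mem_image_of_mem f hz

/-- an automorphism maps balls to balls -/
theorem aut_mem (a : X ≃g X) {z x : W} {n : ℕ} (hx : x ∈ ball X z n) : a x ∈ ball X (a z) n := by
  obtain ⟨p, hp⟩ := hx
  refine ⟨p.map a.toHom, ?_⟩
  rw [SimpleGraph.Walk.length_map]
  exact hp

theorem aut_image (a : X ≃g X) (z : W) (n : ℕ) : a '' ball X z n = ball X (a z) n := by
  ext u
  constructor
  · rintro ⟨x, hx, rfl⟩
    exact aut_mem a hx
  · intro hu
    refine ⟨a.symm u, ?_, a.apply_symm_apply u⟩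
    have := aut_mem a.symm hu
    rwa [a.symm_apply_apply] at this

/-- moving the base point by an automorphism -/
theorem BI.comp_aut {o : W} {v : V} {L r : ℕ} {f : W → V} (h : BI X o (L + r) G v f)
    (a : X ≃g X) (ha : a o ∈ ball X o L) :
    BI X o r G (f (a o)) (fun x => f (a x)) := by
  have hsub : ∀ x ∈ ball X o r, a x ∈ ball X o (L + r) := fun x hx =>
    ball_trans ha (aut_mem a hx)
  refine ⟨rfl, ?_, ?_, ?_⟩
  · intro x hx y hy hxy
    exact a.injective (h.2.1 (hsub x hx) (hsub y hy) hxy)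
  · intro x hx y hy
    rw [← h.2.2.1 (a x) (hsub x hx) (a y) (hsub y hy)]
    exact (a.map_adj_iff).symm
  · have e := h.image ha (h.mem (by omega) ha) r le_rfl
    rw [← e, ← aut_image a o r, image_image]

/-- comparing two rooted isomorphisms -/
theorem BI.compare {o : W} {v : V} {r : ℕ} {f g : W → V} (hf : BI X o r G v f)
    (hg : BI X o r G v g) : ∃ h : W → W, BI X o r X o h ∧ ∀ x ∈ ball X o r, f (h x) = g x := by
  classical
  have key : ∀ x ∈ ball X o r, ∃ y ∈ ball X o r, f y = g x := by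
    intro x hx
    have : g x ∈ f '' ball X o r := by
      rw [hf.2.2.2, ← hg.2.2.2]
      exact mem_image_of_mem g hx
    exact this
  choose! h h1 h2 using key
  refine ⟨h, ⟨?_, ?_, ?_, ?_⟩, h2⟩
  · have ho := mem_ball_self (G := X) o r
    apply hf.2.1 (h1 o ho) ho
    rw [h2 o ho, hg.1, hf.1]
  · intro x hx y hy hxy
    apply hg.2.1 hx hy
    rw [← h2 x hx, ← h2 y hy, hxy]
  · intro x hx y hy
    rw [hf.2.2.1 (h x) (h1 x hx) (h y) (h1 y hy), h2 x hx, h2 y hy]
    exact hg.2.2.1 x hx y hy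
  · ext y
    constructor
    · rintro ⟨x, hx, rfl⟩
      exact h1 x hx
    · intro hy
      have : f y ∈ g '' ball X o r := by
        rw [hg.2.2.2, ← hf.2.2.2]
        exact mem_image_of_mem f hy
      obtain ⟨x, hx, hxy⟩ := this
      refine ⟨x, hx, ?_⟩
      apply hf.2.1 (h1 x hx) hy
      rw [h2 x hx, hxy]

/-- From an isomorphism of balls to a map. -/
theorem BallIso.toBI {v : V} {o : W} {r : ℕ} (h : BallIso G v X o r) :
    ∃ f : W → V, BI X o r G v f := by
  classical
  obtain ⟨e, he⟩ := h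
  have hev : (e ⟨v, mem_ball_self v r⟩ : W) = o := he _ rfl
  have hs : ∀ x : ball X o r, ∀ y : ball X o r,
      (X.Adj x y ↔ G.Adj (e.symm x : V) (e.symm y)) := by
    intro x y
    have := e.symm.map_adj_iff (v := x) (w := y)
    rw [SimpleGraph.comap_adj, SimpleGraph.comap_adj] at this
    exact this.symm
  refine ⟨fun x => if hx : x ∈ ball X o r then (e.symm ⟨x, hx⟩ : V) else v, ?_, ?_, ?_, ?_⟩
  · show (if hx : o ∈ ball X o r then (e.symm ⟨o, hx⟩ : V) else v) = v
    rw [dif_pos (mem_ball_self o r)]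
    have : (⟨o, mem_ball_self o r⟩ : ball X o r) = e ⟨v, mem_ball_self v r⟩ :=
      Subtype.ext hev.symm
    rw [this, e.symm_apply_apply]
  · intro x hx y hy hxy
    simp only [dif_pos hx, dif_pos hy] at hxy
    have := e.symm.injective (Subtype.ext hxy)
    exact congrArg Subtype.val this
  · intro x hx y hy
    simp only [dif_pos hx, dif_pos hy]
    exact hs ⟨x, hx⟩ ⟨y, hy⟩
  · ext u
    constructor
    · rintro ⟨x, hx, rfl⟩
      simp only [dif_pos hx]
      exact (e.symm ⟨x, hx⟩).2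
    · intro hu
      refine ⟨(e ⟨u, hu⟩ : W), (e ⟨u, hu⟩).2, ?_⟩
      simp only [dif_pos (e ⟨u, hu⟩).2, Subtype.coe_eta, e.symm_apply_apply]

end Pool.Agent.H61.UC
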