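import Pool.Agent.H61.UC.Main2

/-!
Cayley graphs and the two implications (problem MP_1644eb_al).
-/

open Set Filter Topology

namespace Pool.Agent.H61.UC

variable {Γ : Type*} [Group Γ] {S : Finset Γ}

theorem cay_adj (h1 : (1 : Γ) ∉ S) (hs : ∀ s ∈ S, s⁻¹ ∈ S) (x y : Γ) :
    (cay S).Adj x y ↔ ∃ s ∈ S, y = s * x := by
  rw [cay, SimpleGraph.fromRel_adj]
  constructor
  · rintro ⟨_, h | ⟨s, hs1, h⟩⟩
    · exact h
    · exact ⟨s⁻¹, hs s hs1, by rw [h]; group⟩
  · rintro ⟨s, hs1, rfl⟩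
    refine ⟨?_, Or.inl ⟨s, hs1, rfl⟩⟩
    intro h
    apply h1
    have : s = 1 := by
      have h2 : 1 * x = s * x := by rw [one_mul]; exact h
      exact (mul_right_cancel h2).symm
    rwa [← this]

/-- right translations -/
def transl (S : Finset Γ) (g : Γ) : cay S ≃g cay S where
  toEquiv := Equiv.mulRight g⁻¹
  map_rel_iff' := by
    intro x y
    simp only [cay, SimpleGraph.fromRel_adj, Equiv.coe_mulRight]
    constructor
    · rintro ⟨h1, h2⟩
      refine ⟨fun h => h1 (by rw [h]), ?_⟩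
      rcases h2 with ⟨s, hs, h⟩ | ⟨s, hs, h⟩
      · exact Or.inl ⟨s, hs, by rw [← mul_assoc] at h; exact mul_right_cancel h⟩
      · exact Or.inr ⟨s, hs, by rw [← mul_assoc] at h; exact mul_right_cancel h⟩
    · rintro ⟨h1, h2⟩
      refine ⟨fun h => h1 (mul_right_cancel h), ?_⟩
      rcases h2 with ⟨s, hs, h⟩ | ⟨s, hs, h⟩
      · exact Or.inl ⟨s, hs, by rw [h, mul_assoc]⟩
      · exact Or.inr ⟨s, hs, by rw [h, mul_assoc]⟩

theorem transl_apply (g x : Γ) : transl S g x = x * g⁻¹ := rfl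

/-- `Γ` acts on its Cayley graph. -/
def translHom (S : Finset Γ) : Γ →* (cay S ≃g cay S) where
  toFun := transl S
  map_one' := by
    apply RelIso.ext
    intro x
    rw [transl_apply, inv_one, mul_one]
    rfl
  map_mul' := by
    intro a b
    apply RelIso.ext
    intro x
    rw [RelIso.mul_apply, transl_apply, transl_apply, transl_apply, mul_inv_rev, mul_assoc]

theorem translHom_injective : Function.Injective (translHom S) := by
  intro a b h
  have h1 : transl S a = transl S b := h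
  have h2 : transl S a 1 = transl S b 1 := by rw [h1]
  rw [transl_apply, transl_apply, one_mul, one_mul] at h2
  exact inv_injective h2

theorem cay_conn (h1 : (1 : Γ) ∉ S) (hs : ∀ s ∈ S, s⁻¹ ∈ S)
    (hgen : Subgroup.closure (S : Set Γ) = ⊤) (x : Γ) : ∃ j, x ∈ ball (cay S) 1 j := by
  have hx : x ∈ Subgroup.closure (S : Set Γ) := by rw [hgen]; exact Subgroup.mem_top x
  induction hx using Subgroup.closure_induction with
  | mem s hs1 =>
    refine ⟨1, adj_ball ?_⟩
    rw [cay_adj h1 hs]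
    exact ⟨s, hs1, (mul_one s).symm⟩
  | one => exact ⟨0, mem_ball_self _ _⟩
  | mul x y _ _ hx hy =>
    obtain ⟨i, hi⟩ := hx
    obtain ⟨j, hj⟩ := hy
    have := aut_mem (transl S y⁻¹) hi
    rw [transl_apply, transl_apply, inv_inv, one_mul] at this
    exact ⟨j + i, ball_trans hj this⟩
  | inv x _ hx =>
    obtain ⟨i, hi⟩ := hx
    have := aut_mem (transl S x) hi
    rw [transl_apply, transl_apply, one_mul, mul_inv_cancel] at this
    exact ⟨i, ball_symm this⟩

theorem cay_finite (h1 : (1 : Γ) ∉ S) (hs : ∀ s ∈ S, s⁻¹ ∈ S) (j : ℕ) :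
    (ball (cay S) 1 j).Finite := by
  induction j with
  | zero => rw [ball_zero]; exact finite_singleton _
  | succ j ih =>
    have hsub : ball (cay S) 1 (j + 1) ⊆ ball (cay S) 1 j ∪
        (fun q : Γ × Γ => q.1 * q.2) '' ((S : Set Γ) ×ˢ ball (cay S) 1 j) := by
      intro u hu
      obtain ⟨w, hw, hwu⟩ := mem_ball_succ.1 hu
      rcases hwu with rfl | hwu
      · exact Or.inl hw
      · right
        obtain ⟨s, hs1, rfl⟩ := (cay_adj h1 hs _ _).1 hwu
        exact ⟨(s, w), ⟨hs1, hw⟩, rfl⟩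
    exact (ih.union ((S.finite_toSet.prod ih).image _)).subset hsub

theorem cay_trans (z : Γ) : ∃ a : cay S ≃g cay S, a 1 = z :=
  ⟨transl S z⁻¹, by rw [transl_apply, inv_inv, one_mul]⟩

theorem models_of_limit {W : Type*} {X : SimpleGraph W} {o : W}
    (N : ℕ → ℕ) (G : (n : ℕ) → SimpleGraph (Fin (N n))) (hG : ConvergesTo N G X o) (r : ℕ) (δ : ℝ)
    (hδ : 0 < δ) : ∃ (N : ℕ) (G : SimpleGraph (Fin N)), 0 < N ∧
      ({v | ¬ BallIso G v X o r}.ncard : ℝ) ≤ δ * N := by
  have h2 := hG r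
  have h3 : ∀ᶠ n in atTop, max (1 - δ) (1 / 2) <
      ({v | BallIso (G n) v X o r}.ncard : ℝ) / N n := by
    apply h2.eventually_const_lt
    rw [max_lt_iff]
    constructor
    · linarith
    · norm_num
  obtain ⟨n, hn⟩ := h3.exists
  rw [max_lt_iff] at hn
  obtain ⟨hn1, hn2⟩ := hn
  have hN : 0 < N n := by
    rcases Nat.eq_zero_or_pos (N n) with h | h
    · exfalso
      have h0 : (N n : ℝ) = 0 := by exact_mod_cast h
      have h00 : ({v | BallIso (G n) v X o r}.ncard : ℝ) / N n = 0 := by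
        rw [h0, div_zero]
      rw [h00] at hn2
      norm_num at hn2
    · exact h
  refine ⟨N n, G n, hN, ?_⟩
  have hN' : (0 : ℝ) < N n := by exact_mod_cast hN
  rw [lt_div_iff₀ hN'] at hn1
  have h4 := ncard_add_ncard_compl {v | BallIso (G n) v X o r}
  rw [Nat.card_fin] at h4
  have h5 : ({v | BallIso (G n) v X o r}.ncard : ℝ) +
      ({v | ¬ BallIso (G n) v X o r}.ncard : ℝ) = N n := by
    exact_mod_cast h4
  linarith

end Pool.Agent.H61.UC
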