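import Pool.Agent.H61.UC.Ball

/-!
Compactness: a rooted isomorphism of a large ball agrees with an automorphism on a small ball
(problem MP_1644eb_al).
-/

open Set Filter Topology

namespace Pool.Agent.H61.UC

variable {W : Type*} {X : SimpleGraph W}

theorem fin_choice {α : Type*} {T : Set α} (hT : T.Finite) {f : ℕ → α}
    (h : ∀ᶠ n in (hyperfilter ℕ : Filter ℕ), f n ∈ T) :
    ∃ t, ∀ᶠ n in (hyperfilter ℕ : Filter ℕ), f n = t := by
  have h' : ∀ᶠ n in (hyperfilter ℕ : Filter ℕ), ∃ t ∈ T, f n = t := by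
    filter_upwards [h] with n hn
    exact ⟨f n, hn, rfl⟩
  obtain ⟨t, _, ht⟩ := (Ultrafilter.eventually_exists_mem_iff hT).1 h'
  exact ⟨t, ht⟩

theorem ev_ge (j : ℕ) : ∀ᶠ n in (hyperfilter ℕ : Filter ℕ), j ≤ n :=
  Nat.hyperfilter_le_atTop (eventually_ge_atTop j)

theorem ev_ex {p : ℕ → Prop} (h : ∀ᶠ n in (hyperfilter ℕ : Filter ℕ), p n) : ∃ n, p n :=
  h.exists

theorem exists_aut {o : W} (hconn : ∀ x, ∃ j, x ∈ ball X o j)
    (hfin : ∀ j, (ball X o j).Finite) (m : ℕ) :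
    ∃ r ≥ m, ∀ h : W → W, BI X o r X o h → ∃ k : X ≃g X, k o = o ∧ ∀ x ∈ ball X o m, h x = k x := by
  classical
  by_contra hcon
  push Not at hcon
  have hcon' : ∀ n : ℕ, ∃ h : W → W, BI X o (m + n) X o h ∧
      ∀ k : X ≃g X, k o = o → ∃ x ∈ ball X o m, h x ≠ k x := by
    intro n
    obtain ⟨h, h1, h2⟩ := hcon (m + n) (by omega)
    exact ⟨h, h1, h2⟩
  choose h hBI hne using hcon'
  -- the limit map
  have hk : ∀ x : W, ∃ t, ∀ᶠ n in (hyperfilter ℕ : Filter ℕ), h n x = t := by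
    intro x
    obtain ⟨j, hj⟩ := hconn x
    apply fin_choice (hfin j)
    filter_upwards [ev_ge j] with n hn
    exact (hBI n).mem (by omega) hj
  choose k hk using hk
  have hinj : Function.Injective k := by
    intro x y hxy
    obtain ⟨i, hi⟩ := hconn x
    obtain ⟨j, hj⟩ := hconn y
    obtain ⟨n, h1, h2, h3, h4⟩ := ev_ex ((hk x).and ((hk y).and ((ev_ge i).and (ev_ge j))))
    apply (hBI n).2.1 (ball_mono (by omega) hi) (ball_mono (by omega) hj)
    rw [h1, h2, hxy]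
  have hsurj : Function.Surjective k := by
    intro y
    obtain ⟨j, hj⟩ := hconn y
    have h1 : ∀ n, ∃ x, j ≤ n → x ∈ ball X o j ∧ h n x = y := by
      intro n
      by_cases hn : j ≤ n
      · have : y ∈ h n '' ball X o j := by
          rw [(hBI n).image0 j (by omega)]
          exact hj
        obtain ⟨x, hx, hxy⟩ := this
        exact ⟨x, fun _ => ⟨hx, hxy⟩⟩
      · exact ⟨y, fun h => absurd h hn⟩
    choose g hg using h1
    obtain ⟨x, hx⟩ := fin_choice (f := g) (hfin j) (by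
      filter_upwards [ev_ge j] with n hn
      exact (hg n hn).1)
    refine ⟨x, ?_⟩
    obtain ⟨n, h1, h2, h3⟩ := ev_ex (hx.and ((hk x).and (ev_ge j)))
    rw [← h2, ← h1]
    exact (hg n h3).2
  have hadj : ∀ x y, X.Adj (k x) (k y) ↔ X.Adj x y := by
    intro x y
    obtain ⟨i, hi⟩ := hconn x
    obtain ⟨j, hj⟩ := hconn y
    obtain ⟨n, h1, h2, h3, h4⟩ := ev_ex ((hk x).and ((hk y).and ((ev_ge i).and (ev_ge j))))
    rw [← h1, ← h2]
    exact ((hBI n).2.2.1 x (ball_mono (by omega) hi) y (ball_mono (by omega) hj)).symm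
  have ho : k o = o := by
    obtain ⟨n, hn⟩ := ev_ex (hk o)
    rw [← hn]
    exact (hBI n).1
  let K : X ≃g X := ⟨Equiv.ofBijective k ⟨hinj, hsurj⟩, fun {x y} => hadj x y⟩
  have hK : ∀ x, K x = k x := fun _ => rfl
  have hall : ∀ᶠ n in (hyperfilter ℕ : Filter ℕ), ∀ x ∈ ball X o m, h n x = k x := by
    rw [(hfin m).eventually_all]
    intro x _
    exact hk x
  obtain ⟨n, hn⟩ := ev_ex hall
  obtain ⟨x, hx, hxn⟩ := hne n K (by rw [hK, ho])
  exact hxn (by rw [hn x hx, hK])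

/-- finitely many automorphisms are separated by a ball -/
theorem exists_radius {o : W} (hconn : ∀ x, ∃ j, x ∈ ball X o j)
    (hK : Finite {k : X ≃g X // k o = o}) :
    ∃ R, ∀ k k' : X ≃g X, k o = o → k' o = o → (∀ x ∈ ball X o R, k x = k' x) → k = k' := by
  classical
  have h1 : ∀ q : {k : X ≃g X // k o = o} × {k : X ≃g X // k o = o}, ∃ R,
      (∀ x ∈ ball X o R, q.1.1 x = q.2.1 x) → q.1 = q.2 := by
    intro q
    by_cases hq : q.1 = q.2
    · exact ⟨0, fun _ => hq⟩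
    · have : ∃ x, q.1.1 x ≠ q.2.1 x := by
        by_contra hcon
        push Not at hcon
        exact hq (Subtype.ext (RelIso.ext hcon))
      obtain ⟨x, hx⟩ := this
      obtain ⟨j, hj⟩ := hconn x
      exact ⟨j, fun h => absurd (h x hj) hx⟩
  choose R hR using h1
  obtain ⟨N, hN⟩ := (Set.finite_range R).bddAbove
  refine ⟨N, fun k k' hk hk' h => ?_⟩
  have := hR (⟨k, hk⟩, ⟨k', hk'⟩) (fun x hx => h x (ball_mono (hN (mem_range_self _)) hx))
  exact congrArg Subtype.val this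

end Pool.Agent.H61.UC
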