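import Pool.Agent.H61.UC.Cay

/-!
The known implication: a sofic group has unlabelled Cayley graphs that are weak limits of laws of
finite graphs (problem MP_1644eb_al).
-/

open Set Filter Topology

namespace Pool.Agent.H61.UC

/-- From a map to an isomorphism of balls. -/
theorem BI.toBallIso {V W : Type*} {G : SimpleGraph V} {X : SimpleGraph W} {v : V} {o : W} {r : ℕ}
    {f : W → V} (h : BI X o r G v f) : BallIso G v X o r := by
  have hb : BijOn f (ball X o r) (ball G v r) := by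
    refine ⟨fun x hx => ?_, h.2.1, ?_⟩
    · rw [← h.2.2.2]
      exact mem_image_of_mem f hx
    · intro u hu
      rw [h.2.2.2]
      exact hu
  let e : ball X o r ≃ ball G v r := hb.equiv f
  have he : ∀ x : ball X o r, (e x : V) = f x := fun _ => rfl
  have hadj : ∀ x y : ball X o r, X.Adj x y ↔ G.Adj (e x) (e y) := by
    intro x y
    rw [he, he]
    exact h.2.2.1 x x.2 y y.2
  refine ⟨⟨e.symm, ?_⟩, ?_⟩
  · intro a b
    rw [SimpleGraph.comap_adj, SimpleGraph.comap_adj]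
    have := hadj (e.symm a) (e.symm b)
    rw [e.apply_symm_apply, e.apply_symm_apply] at this
    exact this
  · intro x hx
    show ((e.symm x : ball X o r) : W) = o
    have h1 : x = e ⟨o, mem_ball_self o r⟩ := by
      apply Subtype.ext
      rw [he, h.1, hx]
    rw [h1, e.symm_apply_apply]

/-- the graph of a family of permutations -/
def schr {Γ : Type*} (S : Finset Γ) {n : ℕ} (σ : Γ → Equiv.Perm (Fin n)) :
    SimpleGraph (Fin n) :=
  SimpleGraph.fromRel (fun u w => ∃ s ∈ S, w = σ s u)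

variable {Γ : Type*} [Group Γ] {S : Finset Γ}

theorem schr_BI (h1 : (1 : Γ) ∉ S) (hs : ∀ s ∈ S, s⁻¹ ∈ S) {n : ℕ}
    (σ : Γ → Equiv.Perm (Fin n)) (r : ℕ) (v : Fin n)
    (g1 : ∀ s ∈ S, ∀ x ∈ ball (cay S) 1 (r + 1), σ (s * x) v = σ s (σ x v))
    (g2 : ∀ x ∈ ball (cay S) 1 (r + 1), ∀ y ∈ ball (cay S) 1 (r + 1), σ x v = σ y v → x = y)
    (g3 : σ 1 v = v) : BI (cay S) 1 r (schr S σ) v (fun x => σ x v) := by
  have hmul : ∀ s ∈ S, ∀ x j, x ∈ ball (cay S) 1 j → s * x ∈ ball (cay S) 1 (j + 1) := by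
    intro s hs1 x j hx
    refine mem_ball_succ.2 ⟨x, hx, Or.inr ?_⟩
    rw [cay_adj h1 hs]
    exact ⟨s, hs1, rfl⟩
  have hadj : ∀ x ∈ ball (cay S) 1 r, ∀ y ∈ ball (cay S) 1 r,
      ((cay S).Adj x y ↔ (schr S σ).Adj (σ x v) (σ y v)) := by
    intro x hx y hy
    have hx' := ball_mono (Nat.le_succ r) hx
    have hy' := ball_mono (Nat.le_succ r) hy
    constructor
    · intro h
      have hne : σ x v ≠ σ y v := fun he => h.ne (g2 x hx' y hy' he)
      obtain ⟨s, hs1, rfl⟩ := (cay_adj h1 hs x y).1 h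
      rw [schr, SimpleGraph.fromRel_adj]
      exact ⟨hne, Or.inl ⟨s, hs1, g1 s hs1 x hx'⟩⟩
    · intro h
      rw [schr, SimpleGraph.fromRel_adj] at h
      rcases h.2 with ⟨s, hs1, he⟩ | ⟨s, hs1, he⟩
      · rw [← g1 s hs1 x hx'] at he
        rw [cay_adj h1 hs]
        exact ⟨s, hs1, g2 y hy' _ (hmul s hs1 x r hx) he⟩
      · rw [← g1 s hs1 y hy'] at he
        apply SimpleGraph.Adj.symm
        rw [cay_adj h1 hs]
        exact ⟨s, hs1, g2 x hx' _ (hmul s hs1 y r hy) he⟩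
  have himg : ∀ j, j ≤ r → (fun x => σ x v) '' ball (cay S) 1 j = ball (schr S σ) v j := by
    intro j
    induction j with
    | zero =>
      intro _
      rw [ball_zero, ball_zero, image_singleton, g3]
    | succ j ih =>
      intro hj
      have ih' := ih (by omega)
      ext u
      constructor
      · rintro ⟨x, hx, rfl⟩
        obtain ⟨w, hw, hwx⟩ := mem_ball_succ.1 hx
        have hw' : σ w v ∈ ball (schr S σ) v j := by
          rw [← ih']
          exact mem_image_of_mem (fun x => σ x v) hw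
        refine mem_ball_succ.2 ⟨σ w v, hw', ?_⟩
        rcases hwx with rfl | hwx
        · exact Or.inl rfl
        · exact Or.inr ((hadj w (ball_mono (by omega) hw) x (ball_mono hj hx)).1 hwx)
      · intro hu
        obtain ⟨w, hw, hwu⟩ := mem_ball_succ.1 hu
        rw [← ih'] at hw
        obtain ⟨x, hx, rfl⟩ := hw
        rcases hwu with rfl | hwu
        · exact ⟨x, ball_mono (by omega) hx, rfl⟩
        · rw [schr, SimpleGraph.fromRel_adj] at hwu
          rcases hwu.2 with ⟨s, hs1, he⟩ | ⟨s, hs1, he⟩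
          · refine ⟨s * x, hmul s hs1 x j hx, ?_⟩
            show σ (s * x) v = u
            rw [g1 s hs1 x (ball_mono (by omega) hx)]
            exact he.symm
          · refine ⟨s⁻¹ * x, hmul _ (hs s hs1) x j hx, ?_⟩
            show σ (s⁻¹ * x) v = u
            apply (σ s).injective
            rw [← g1 s hs1 _ (ball_mono (by omega) (hmul _ (hs s hs1) x j hx)),
              mul_inv_cancel_left]
            exact he
  exact ⟨g3, fun x hx y hy he => g2 x (ball_mono (Nat.le_succ r) hx) y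
    (ball_mono (Nat.le_succ r) hy) he, hadj, himg r le_rfl⟩

/-- sofic models on `Fin n` -/
theorem fin_model {A : Type*} [Group A] (hA : IsSofic A) (F : Finset A) (ε : ℝ) (hε : 0 < ε) :
    ∃ (n : ℕ) (σ : A → Equiv.Perm (Fin n)), 0 < n ∧
    (∀ a ∈ F, ∀ b ∈ F, ({v | σ (a * b) v ≠ σ a (σ b v)}.ncard : ℝ) ≤ ε * n) ∧
    (∀ a ∈ F, a ≠ 1 → ({v | σ a v = v}.ncard : ℝ) ≤ ε * n) := by
  obtain ⟨V, hV, hne, σ, h1, h2⟩ := hA F ε hε
  obtain ⟨e⟩ : Nonempty (V ≃ Fin (Nat.card V)) := ⟨Finite.equivFin V⟩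
  refine ⟨Nat.card V, fun a => (e.symm.trans (σ a)).trans e, Nat.card_pos, ?_, ?_⟩
  · intro a ha b hb
    have : {v | ((e.symm.trans (σ (a * b))).trans e) v ≠
        ((e.symm.trans (σ a)).trans e) (((e.symm.trans (σ b)).trans e) v)} =
        e '' {v | σ (a * b) v ≠ σ a (σ b v)} := by
      ext v
      constructor
      · intro hv
        refine ⟨e.symm v, ?_, e.apply_symm_apply v⟩
        intro he
        apply hv
        simp [he]
      · rintro ⟨w, hw, rfl⟩
        intro he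
        apply hw
        simpa using he
    rw [this, ncard_image_of_injective _ e.injective]
    exact h1 a ha b hb
  · intro a ha ha1
    have : {v | ((e.symm.trans (σ a)).trans e) v = v} = e '' {v | σ a v = v} := by
      ext v
      constructor
      · intro hv
        refine ⟨e.symm v, ?_, e.apply_symm_apply v⟩
        have hv' : e (σ a (e.symm v)) = v := hv
        show σ a (e.symm v) = e.symm v
        apply e.injective
        rw [hv', e.apply_symm_apply]
      · rintro ⟨w, hw, rfl⟩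
        show e (σ a (e.symm (e w))) = e w
        rw [e.symm_apply_apply]
        exact congrArg e hw
    rw [this, ncard_image_of_injective _ e.injective]
    exact h2 a ha ha1

theorem model_of_sofic (h1 : (1 : Γ) ∉ S) (hs : ∀ s ∈ S, s⁻¹ ∈ S)
    (hA : IsSofic Γ) (r : ℕ) (δ : ℝ) (hδ : 0 < δ) :
    ∃ (N : ℕ) (G : SimpleGraph (Fin N)), 0 < N ∧
      ({v | ¬ BallIso G v (cay S) 1 r}.ncard : ℝ) ≤ δ * N := by
  classical
  set B : Finset Γ := (cay_finite h1 hs (r + 1)).toFinset with hB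
  have hmB : ∀ x, x ∈ B ↔ x ∈ ball (cay S) 1 (r + 1) := by
    intro x
    rw [hB, Set.Finite.mem_toFinset]
  set F : Finset Γ := (S ∪ B) ∪ (B ×ˢ B).image (fun q => q.2 * q.1⁻¹) with hF
  have hBF : ∀ x ∈ B, x ∈ F := fun x hx =>
    Finset.mem_union_left _ (Finset.mem_union_right _ hx)
  have hSF : ∀ x ∈ S, x ∈ F := fun x hx =>
    Finset.mem_union_left _ (Finset.mem_union_left _ hx)
  have hBBF : ∀ x ∈ B, ∀ y ∈ B, y * x⁻¹ ∈ F := fun x hx y hy =>
    Finset.mem_union_right _ (Finset.mem_image.2 ⟨(x, y), Finset.mem_product.2 ⟨hx, hy⟩, rfl⟩)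
  have h1B : (1 : Γ) ∈ B := by
    rw [hmB]
    exact mem_ball_self _ _
  set κ : ℕ := (F ×ˢ F).card with hκ
  obtain ⟨n, σ, hn, e1, e2⟩ := fin_model hA F (δ / (2 * (κ + 1))) (by positivity)
  refine ⟨n, schr S σ, hn, ?_⟩
  set T : Γ × Γ → Set (Fin n) := fun q => {v | σ (q.1 * q.2) v ≠ σ q.1 (σ q.2 v)} ∪
    {v | q.1 ≠ 1 ∧ σ q.1 (σ q.2 v) = σ q.2 v} with hT
  have hsub : {v | ¬ BallIso (schr S σ) v (cay S) 1 r} ⊆ ⋃ q ∈ F ×ˢ F, T q := by
    intro v hv
    by_contra hcon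
    simp only [mem_iUnion, not_exists] at hcon
    have k1 : ∀ a ∈ F, ∀ b ∈ F, σ (a * b) v = σ a (σ b v) := by
      intro a ha b hb
      by_contra hc
      exact hcon (a, b) (Finset.mem_product.2 ⟨ha, hb⟩) (Or.inl hc)
    have k2 : ∀ a ∈ F, ∀ b ∈ F, a ≠ 1 → σ a (σ b v) ≠ σ b v := by
      intro a ha b hb ha1 hc
      exact hcon (a, b) (Finset.mem_product.2 ⟨ha, hb⟩) (Or.inr ⟨ha1, hc⟩)
    apply hv
    apply BI.toBallIso (f := fun x => σ x v)
    apply schr_BI h1 hs σ r v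
    · intro s hs1 x hx
      exact k1 s (hSF s hs1) x (hBF x ((hmB x).2 hx))
    · intro x hx y hy he
      have hx' := (hmB x).2 hx
      have hy' := (hmB y).2 hy
      by_contra hne
      have hne' : y * x⁻¹ ≠ 1 := by
        intro h
        exact hne (mul_inv_eq_one.1 h).symm
      apply k2 (y * x⁻¹) (hBBF x hx' y hy') x (hBF x hx') hne'
      rw [← k1 (y * x⁻¹) (hBBF x hx' y hy') x (hBF x hx'), inv_mul_cancel_right]
      exact he.symm
    · have := k1 1 (hBF 1 h1B) 1 (hBF 1 h1B)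
      rw [mul_one] at this
      exact ((σ 1).injective this).symm
  have hTcard : ∀ q ∈ F ×ˢ F, ((T q).ncard : ℝ) ≤ δ / (κ + 1) * n := by
    intro q hq
    obtain ⟨hq1, hq2⟩ := Finset.mem_product.1 hq
    have a1 : ((T q).ncard : ℝ) ≤ ({v | σ (q.1 * q.2) v ≠ σ q.1 (σ q.2 v)}.ncard : ℝ) +
        ({v | q.1 ≠ 1 ∧ σ q.1 (σ q.2 v) = σ q.2 v}.ncard : ℝ) := ncard_le_add (subset_refl _)
    have a2 := e1 q.1 hq1 q.2 hq2
    have a3 : ({v | q.1 ≠ 1 ∧ σ q.1 (σ q.2 v) = σ q.2 v}.ncard : ℝ) ≤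
        δ / (2 * (κ + 1)) * n := by
      by_cases hq3 : q.1 = 1
      · have : {v | q.1 ≠ 1 ∧ σ q.1 (σ q.2 v) = σ q.2 v} = ∅ := by
          ext v
          simp [hq3]
        rw [this, ncard_empty, Nat.cast_zero]
        positivity
      · refine le_trans ?_ (e2 q.1 hq1 hq3)
        have hs2 : {v | q.1 ≠ 1 ∧ σ q.1 (σ q.2 v) = σ q.2 v} ⊆
            (σ q.2).symm '' {w | σ q.1 w = w} := by
          rintro v ⟨_, hv⟩
          exact ⟨σ q.2 v, hv, (σ q.2).symm_apply_apply v⟩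
        have := ncard_le_ncard hs2 (toFinite _)
        rw [ncard_image_of_injective _ (σ q.2).symm.injective] at this
        exact_mod_cast this
    have a4 : δ / (κ + 1) * (n : ℝ) = δ / (2 * (κ + 1)) * n + δ / (2 * (κ + 1)) * n := by
      have : ((κ : ℝ) + 1) ≠ 0 := by positivity
      field_simp
      ring
    rw [a4]
    linarith
  have hU : ((⋃ q ∈ F ×ˢ F, T q).ncard : ℝ) ≤ ∑ q ∈ F ×ˢ F, ((T q).ncard : ℝ) := by
    have : (⋃ q ∈ F ×ˢ F, T q).ncard ≤ ∑ q ∈ F ×ˢ F, (T q).ncard :=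
      Finset.set_ncard_biUnion_le _ _
    exact_mod_cast this
  calc ({v | ¬ BallIso (schr S σ) v (cay S) 1 r}.ncard : ℝ)
      ≤ ((⋃ q ∈ F ×ˢ F, T q).ncard : ℝ) := by
        exact_mod_cast ncard_le_ncard hsub (toFinite _)
    _ ≤ ∑ q ∈ F ×ˢ F, ((T q).ncard : ℝ) := hU
    _ ≤ ∑ q ∈ F ×ˢ F, (δ / (κ + 1) * n) := Finset.sum_le_sum hTcard
    _ = κ * (δ / (κ + 1) * n) := by rw [Finset.sum_const, nsmul_eq_mul]
    _ ≤ (κ + 1) * (δ / (κ + 1) * n) := by
        apply mul_le_mul_of_nonneg_right (by linarith)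
        positivity
    _ = δ * n := by
        have : ((κ : ℝ) + 1) ≠ 0 := by positivity
        field_simp

theorem exists_limit_of_sofic (h1 : (1 : Γ) ∉ S) (hs : ∀ s ∈ S, s⁻¹ ∈ S) (hA : IsSofic Γ) :
    ∃ (N : ℕ → ℕ) (G : (n : ℕ) → SimpleGraph (Fin (N n))), ConvergesTo N G (cay S) 1 := by
  have hk : ∀ k : ℕ, ∃ (N : ℕ) (G : SimpleGraph (Fin N)), 0 < N ∧
      ({v | ¬ BallIso G v (cay S) 1 k}.ncard : ℝ) ≤ (1 / ((k : ℝ) + 1)) * N := fun k =>
    model_of_sofic h1 hs hA k (1 / ((k : ℝ) + 1)) (by positivity)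
  choose N G hN hG using hk
  refine ⟨N, G, fun r => ?_⟩
  have hle1 : ∀ k, ({v | BallIso (G k) v (cay S) 1 r}.ncard : ℝ) / N k ≤ 1 := by
    intro k
    have hNk : (0 : ℝ) < N k := by exact_mod_cast hN k
    rw [div_le_one hNk]
    have := ncard_le_ncard (subset_univ {v | BallIso (G k) v (cay S) 1 r}) (toFinite _)
    rw [ncard_univ, Nat.card_fin] at this
    exact_mod_cast this
  have hge : ∀ᶠ k : ℕ in atTop, 1 - 1 / ((k : ℝ) + 1) ≤
      ({v | BallIso (G k) v (cay S) 1 r}.ncard : ℝ) / N k := by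
    filter_upwards [eventually_ge_atTop r] with k hkr
    have hNk : (0 : ℝ) < N k := by exact_mod_cast hN k
    rw [le_div_iff₀ hNk]
    have hsub : {v | ¬ BallIso (G k) v (cay S) 1 r} ⊆ {v | ¬ BallIso (G k) v (cay S) 1 k} := by
      intro v hv hv'
      apply hv
      obtain ⟨f, hf⟩ := hv'.toBI
      exact (hf.mono hkr).toBallIso
    have h2 := ncard_le_ncard hsub (toFinite _)
    have h4 := ncard_add_ncard_compl {v | BallIso (G k) v (cay S) 1 r}
    rw [Nat.card_fin] at h4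
    have h5 : ({v | BallIso (G k) v (cay S) 1 r}.ncard : ℝ) +
        ({v | ¬ BallIso (G k) v (cay S) 1 r}.ncard : ℝ) = N k := by
      exact_mod_cast h4
    have h6 : ({v | ¬ BallIso (G k) v (cay S) 1 r}.ncard : ℝ) ≤
        ({v | ¬ BallIso (G k) v (cay S) 1 k}.ncard : ℝ) := by exact_mod_cast h2
    have h7 := hG k
    rw [sub_mul, one_mul]
    linarith
  have hlim : Tendsto (fun k : ℕ => 1 - 1 / ((k : ℝ) + 1)) atTop (𝓝 1) := by
    have := tendsto_one_div_add_atTop_nhds_zero_nat (𝕜 := ℝ)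
    have h2 := (tendsto_const_nhds (x := (1 : ℝ))).sub this
    rwa [sub_zero] at h2
  exact tendsto_of_tendsto_of_tendsto_of_le_of_le' hlim tendsto_const_nhds hge
    (Eventually.of_forall hle1)

end Pool.Agent.H61.UC
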