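import Mathlib

/-!
Definitions for problem MP_1644eb_al: balls, rooted isomorphism of balls, unlabelled Cayley graphs,
weak limits of laws of finite graphs, sofic groups.
-/

open Filter Topology

namespace Pool.Agent.H61.UC

/-- The ball of radius `r` around `v`: the vertices joined to `v` by a walk of length at most
`r`. -/
def ball {V : Type*} (G : SimpleGraph V) (v : V) (r : ℕ) : Set V :=
  {u | ∃ p : G.Walk v u, p.length ≤ r}

/-- The balls of radius `r` of `(G, v)` and `(H, w)` are isomorphic as rooted graphs. -/
def BallIso {V W : Type*} (G : SimpleGraph V) (v : V) (H : SimpleGraph W) (w : W) (r : ℕ) : Prop :=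
  ∃ f : G.induce (ball G v r) ≃g H.induce (ball H w r),
    ∀ x : ball G v r, (x : V) = v → (f x : W) = w

/-- The unlabelled Cayley graph: `x` and `s * x` are adjacent for `s ∈ S`. -/
def cay {Γ : Type*} [Group Γ] (S : Finset Γ) : SimpleGraph Γ :=
  SimpleGraph.fromRel (fun x y => ∃ s ∈ S, y = s * x)

/-- The laws of the finite graphs `G n` (component of a uniform random vertex) converge weakly to
the Dirac mass at `(X, o)`: for every `r` the proportion of the vertices of `G n` whose ball of
radius `r` is isomorphic to the ball of radius `r` around `o` tends to `1`. -/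
def ConvergesTo {W : Type*} (N : ℕ → ℕ) (G : (n : ℕ) → SimpleGraph (Fin (N n)))
    (X : SimpleGraph W) (o : W) : Prop :=
  ∀ r : ℕ, Tendsto (fun n => ({v | BallIso (G n) v X o r}.ncard : ℝ) / N n) atTop (𝓝 1)

/-- Sofic groups: every finite set `F` of elements has, for every `ε`, an almost multiplicative,
almost free family of permutations of a finite nonempty set. -/
def IsSofic (A : Type*) [Group A] : Prop :=
  ∀ (F : Finset A) (ε : ℝ), 0 < ε → ∃ (V : Type) (_ : Finite V) (_ : Nonempty V)
    (σ : A → Equiv.Perm V),
    (∀ a ∈ F, ∀ b ∈ F, ({v | σ (a * b) v ≠ σ a (σ b v)}.ncard : ℝ) ≤ ε * Nat.card V) ∧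
    (∀ a ∈ F, a ≠ 1 → ({v | σ a v = v}.ncard : ℝ) ≤ ε * Nat.card V)

end Pool.Agent.H61.UC
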