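import Pool.Agent.H61.UC.Ball

/-!
Positive proportion of good vertices is enough (problem MP_1644eb_al).
-/

open Set Filter Topology

namespace Pool.Agent.H61.UC

theorem comap_ball {N g : ℕ} {G : SimpleGraph (Fin N)} (ι : Fin g → Fin N)
    (hι : Function.Injective ι) (i : Fin g) (R : ℕ) (hR : ball G (ι i) R ⊆ range ι) (n : ℕ)
    (hn : n ≤ R) (k : Fin g) : k ∈ ball (G.comap ι) i n ↔ ι k ∈ ball G (ι i) n := by
  induction n generalizing k with
  | zero =>
    rw [ball_zero, ball_zero, mem_singleton_iff, mem_singleton_iff]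
    exact ⟨fun h => by rw [h], fun h => hι h⟩
  | succ n ih =>
    have ih' := ih (by omega)
    rw [mem_ball_succ, mem_ball_succ]
    constructor
    · rintro ⟨w, hw, h⟩
      refine ⟨ι w, (ih' w).1 hw, ?_⟩
      rcases h with rfl | h
      · exact Or.inl rfl
      · exact Or.inr h
    · rintro ⟨w, hw, h⟩
      obtain ⟨w', rfl⟩ := hR (ball_mono (by omega) hw)
      refine ⟨w', (ih' w').2 hw, ?_⟩
      rcases h with h | h
      · exact Or.inl (hι h)
      · exact Or.inr h

theorem comap_BI {W : Type*} {X : SimpleGraph W} {o : W} {N g : ℕ} {G : SimpleGraph (Fin N)}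
    (ι : Fin g → Fin N) (hι : Function.Injective ι) (i : Fin g) (R : ℕ)
    (hR : ball G (ι i) R ⊆ range ι) {f : W → Fin N} (hf : BI X o R G (ι i) f) :
    ∃ f' : W → Fin g, BI X o R (G.comap ι) i f' := by
  have key : ∀ x, ∃ k : Fin g, x ∈ ball X o R → ι k = f x := by
    intro x
    by_cases hx : x ∈ ball X o R
    · have : f x ∈ range ι := by
        apply hR
        rw [← hf.2.2.2]
        exact mem_image_of_mem f hx
      obtain ⟨k, hk⟩ := this
      exact ⟨k, fun _ => hk⟩
    · exact ⟨i, fun h => absurd h hx⟩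
  choose f' hf' using key
  have ho := mem_ball_self (G := X) o R
  refine ⟨f', ?_, ?_, ?_, ?_⟩
  · apply hι
    rw [hf' o ho, hf.1]
  · intro x hx y hy hxy
    apply hf.2.1 hx hy
    rw [← hf' x hx, ← hf' y hy, hxy]
  · intro x hx y hy
    rw [SimpleGraph.comap_adj, hf' x hx, hf' y hy]
    exact hf.2.2.1 x hx y hy
  · ext k
    rw [comap_ball ι hι i R hR R le_rfl k, ← hf.2.2.2]
    constructor
    · rintro ⟨x, hx, rfl⟩
      exact ⟨x, hx, (hf' x hx).symm⟩
    · rintro ⟨x, hx, hxk⟩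
      refine ⟨x, hx, ?_⟩
      apply hι
      rw [hf' x hx, hxk]

/-- From a positive proportion to almost everything. -/
theorem models_of_pos {W : Type*} {X : SimpleGraph W} {o : W}
    (htrans : ∀ z, ∃ a : X ≃g X, a o = z) (c : ℝ) (hc : 0 < c)
    (hpos : ∀ r : ℕ, ∃ (N : ℕ) (G : SimpleGraph (Fin N)), 0 < N ∧
      c * N ≤ ({v | ∃ f, BI X o r G v f}.ncard : ℝ)) (R : ℕ) (δ : ℝ) (hδ : 0 < δ) :
    ∃ (N : ℕ) (G : SimpleGraph (Fin N)), 0 < N ∧
      ({v | ¬ ∃ f, BI X o R G v f}.ncard : ℝ) ≤ δ * N := by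
  classical
  obtain ⟨K, hK⟩ := exists_nat_gt (1 / (δ * c))
  have hKpos : (0 : ℝ) < K := lt_trans (by positivity) hK
  obtain ⟨N, G, hN, hG⟩ := hpos ((K + 1) * R)
  have hN' : (0 : ℝ) < N := by exact_mod_cast hN
  set S : ℕ → Set (Fin N) := fun j => {v | ∃ f, BI X o (j * R) G v f} with hS
  have hmono : ∀ i j, i ≤ j → S j ⊆ S i := by
    rintro i j hij v ⟨f, hf⟩
    exact ⟨f, hf.mono (Nat.mul_le_mul_right R hij)⟩
  have hbig : ∀ j, j ≤ K + 1 → c * N ≤ ((S j).ncard : ℝ) := by
    intro j hj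
    refine hG.trans ?_
    exact_mod_cast ncard_le_ncard (hmono j (K + 1) hj) (toFinite _)
  -- pigeonhole
  have hpig : ∃ j < K, ((S j).ncard : ℝ) - (S (j + 1)).ncard ≤ δ * c * N := by
    by_contra hcon
    push Not at hcon
    have hsum : ∀ k, k ≤ K → (k : ℝ) * (δ * c * N) ≤ ((S 0).ncard : ℝ) - (S k).ncard := by
      intro k
      induction k with
      | zero => intro _; simp
      | succ k ih =>
        intro hk
        have h1 := ih (by omega)
        have h2 := hcon k (by omega)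
        push_cast
        linarith
    have h1 := hsum K le_rfl
    have h2 : ((S 0).ncard : ℝ) ≤ N := by
      have := ncard_le_ncard (subset_univ (S 0)) (toFinite _)
      rw [ncard_univ, Nat.card_fin] at this
      exact_mod_cast this
    have h3 := hbig K (by omega)
    have h4 : 1 < K * (δ * c) := by
      rw [div_lt_iff₀ (by positivity)] at hK
      exact hK
    have h5 : (0 : ℝ) < c * N := by positivity
    nlinarith
  obtain ⟨j, hj, hjd⟩ := hpig
  -- the induced graph on `S j`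
  have hfinS : Finite (S j) := inferInstance
  set g : ℕ := Nat.card (S j) with hg
  have hgS : g = (S j).ncard := rfl
  obtain ⟨e⟩ : Nonempty (S j ≃ Fin g) := ⟨Finite.equivFin (S j)⟩
  let ι : Fin g → Fin N := fun i => ((e.symm i : S j) : Fin N)
  have hι : Function.Injective ι := fun a b hab => e.symm.injective (Subtype.ext hab)
  have hrange : ∀ v ∈ S j, v ∈ range ι := by
    intro v hv
    exact ⟨e ⟨v, hv⟩, by show ((e.symm (e ⟨v, hv⟩) : S j) : Fin N) = v; rw [e.symm_apply_apply]⟩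
  have hbj := hbig j (by omega)
  have hgpos : 0 < g := by
    have : (0 : ℝ) < ((S j).ncard : ℝ) := lt_of_lt_of_le (by positivity) hbj
    rw [hgS]
    exact_mod_cast this
  refine ⟨g, G.comap ι, hgpos, ?_⟩
  have hgood : ∀ i : Fin g, ι i ∈ S (j + 1) → ∃ f, BI X o R (G.comap ι) i f := by
    rintro i ⟨f, hf⟩
    have hRle : R ≤ (j + 1) * R := by
      rw [add_mul, one_mul]
      omega
    apply comap_BI ι hι i R _ (hf.mono hRle)
    intro u hu
    apply hrange
    rw [← hf.image0 R hRle] at hu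
    obtain ⟨z, hz, rfl⟩ := hu
    obtain ⟨a, rfl⟩ := htrans z
    have h1 : R + j * R ≤ (j + 1) * R := by rw [add_mul, one_mul, add_comm]
    exact ⟨_, (hf.mono h1).comp_aut a hz⟩
  have hsub : ι '' {i | ¬ ∃ f, BI X o R (G.comap ι) i f} ⊆ S j \ S (j + 1) := by
    rintro _ ⟨i, hi, rfl⟩
    exact ⟨(e.symm i).2, fun h => hi (hgood i h)⟩
  have h1 := ncard_le_ncard hsub (toFinite _)
  rw [ncard_image_of_injective _ hι] at h1
  have h2 : (S j \ S (j + 1)).ncard + (S (j + 1)).ncard = (S j).ncard :=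
    ncard_sdiff_add_ncard_of_subset (hmono j (j + 1) (Nat.le_succ j)) (toFinite _)
  have h3 : ((S j \ S (j + 1)).ncard : ℝ) + ((S (j + 1)).ncard : ℝ) = ((S j).ncard : ℝ) := by
    exact_mod_cast h2
  have h4 : ({i | ¬ ∃ f, BI X o R (G.comap ι) i f}.ncard : ℝ) ≤
      ((S j \ S (j + 1)).ncard : ℝ) := by exact_mod_cast h1
  have h5 : δ * (c * N) ≤ δ * g := by
    rw [hgS]
    exact mul_le_mul_of_nonneg_left hbj hδ.le
  nlinarith

end Pool.Agent.H61.UC
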