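import Pool.Agent.H61.UC.Conv
import Pool.Agent.H61.UC.Pos

/-!
The equivalence (problem MP_1644eb_al).
-/

open Set Filter Topology

namespace Pool.Agent.H61.UC

variable {Γ : Type} [Group Γ] {S : Finset Γ}

/-- If `M` contains the pointwise stabiliser of a ball and no translation, its orbits are
finite. -/
theorem orbit_finite (h1 : (1 : Γ) ∉ S) (hs : ∀ s ∈ S, s⁻¹ ∈ S)
    (M : Subgroup (cay S ≃g cay S)) [M.Normal] (m : ℕ)
    (hm : ∀ a : cay S ≃g cay S, (∀ x ∈ ball (cay S) 1 m, a x = x) → a ∈ M)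
    (hΓ : ∀ g : Γ, translHom S g ∈ M → g = 1) :
    {x : Γ | ∃ n ∈ M, n 1 = x}.Finite := by
  have hB : Finite (ball (cay S) (1 : Γ) m) := cay_finite h1 hs m
  have key : ∀ y : {x : Γ | ∃ n ∈ M, n 1 = x},
      ∃ (n : cay S ≃g cay S) (f : ball (cay S) (1 : Γ) m → ball (cay S) (1 : Γ) m),
        n ∈ M ∧ n 1 = y.1 ∧ ∀ x, (f x : Γ) = ((translHom S y.1⁻¹)⁻¹ * n) x := by
    rintro ⟨y, n, hn, hy⟩
    have hfix : ((translHom S y⁻¹)⁻¹ * n) 1 = 1 := by
      show (translHom S y⁻¹)⁻¹ (n 1) = 1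
      rw [hy]
      have : translHom S y⁻¹ (1 : Γ) = y := by
        show transl S y⁻¹ 1 = y
        rw [transl_apply, inv_inv, one_mul]
      calc (translHom S y⁻¹)⁻¹ y = (translHom S y⁻¹)⁻¹ (translHom S y⁻¹ (1 : Γ)) := by rw [this]
        _ = 1 := RelIso.inv_apply_self _ _
    refine ⟨n, fun x => ⟨((translHom S y⁻¹)⁻¹ * n) x, ?_⟩, hn, hy, fun x => rfl⟩
    have := aut_mem ((translHom S y⁻¹)⁻¹ * n) x.2
    rwa [hfix] at this
  choose n f hn hn1 hf using key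
  have hinj : Function.Injective f := by
    intro y y' he
    set τ := translHom S (y.1)⁻¹ with hτ
    set τ' := translHom S (y'.1)⁻¹ with hτ'
    have hk : (τ⁻¹ * n y)⁻¹ * (τ'⁻¹ * n y') ∈ M := by
      apply hm
      intro x hx
      have e1 := hf y ⟨x, hx⟩
      have e2 := hf y' ⟨x, hx⟩
      rw [he, e2] at e1
      show (τ⁻¹ * n y)⁻¹ ((τ'⁻¹ * n y') x) = x
      have e1' : (τ'⁻¹ * n y') x = (τ⁻¹ * n y) x := e1
      rw [e1', RelIso.inv_apply_self]
    have hM2 : τ * τ'⁻¹ ∈ M := by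
      have h3 := M.mul_mem (M.mul_mem (hn y) hk) (M.inv_mem (hn y'))
      have e : n y * ((τ⁻¹ * n y)⁻¹ * (τ'⁻¹ * n y')) * (n y')⁻¹ = τ * τ'⁻¹ := by group
      rwa [e] at h3
    have h4 : translHom S ((y.1)⁻¹ * ((y'.1)⁻¹)⁻¹) ∈ M := by
      rw [map_mul, map_inv (translHom S) (y'.1)⁻¹]
      exact hM2
    have h5 := hΓ _ h4
    rw [inv_inv] at h5
    exact Subtype.ext (inv_mul_eq_one.1 h5)
  exact Set.finite_coe_iff.1 (Finite.of_injective f hinj)

theorem equivalence (h1 : (1 : Γ) ∉ S) (hs : ∀ s ∈ S, s⁻¹ ∈ S)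
    (hgen : Subgroup.closure (S : Set Γ) = ⊤) (M : Subgroup (cay S ≃g cay S)) [M.Normal] (m : ℕ)
    (hm : ∀ a : cay S ≃g cay S, (∀ x ∈ ball (cay S) 1 m, a x = x) → a ∈ M)
    (hΓ : ∀ g : Γ, (∃ a ∈ M, ∀ x : Γ, a x = x * g) → g = 1) :
    List.TFAE [IsSofic Γ,
      ∃ (N : ℕ → ℕ) (G : (n : ℕ) → SimpleGraph (Fin (N n))), ConvergesTo N G (cay S) 1,
      ∃ c : ℝ, 0 < c ∧ ∀ r : ℕ, ∃ (N : ℕ) (G : SimpleGraph (Fin N)), 0 < N ∧
        c * N ≤ ({v | BallIso G v (cay S) 1 r}.ncard : ℝ),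
      IsSofic ((cay S ≃g cay S) ⧸ M)] := by
  have hΓ' : ∀ g : Γ, translHom S g ∈ M → g = 1 := by
    intro g hg
    have := hΓ g⁻¹ ⟨translHom S g, hg, fun x => rfl⟩
    rwa [inv_eq_one] at this
  tfae_have 1 → 2 := fun h => exists_limit_of_sofic h1 hs h
  tfae_have 2 → 3 := by
    rintro ⟨N, G, hG⟩
    refine ⟨1 / 2, by norm_num, fun r => ?_⟩
    obtain ⟨N', G', hN', hG'⟩ := models_of_limit N G hG r (1 / 2) (by norm_num)
    refine ⟨N', G', hN', ?_⟩
    have h4 := ncard_add_ncard_compl {v | BallIso G' v (cay S) 1 r}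
    rw [Nat.card_fin] at h4
    have h5 : ({v | BallIso G' v (cay S) 1 r}.ncard : ℝ) +
        ({v | ¬ BallIso G' v (cay S) 1 r}.ncard : ℝ) = N' := by
      exact_mod_cast h4
    linarith
  tfae_have 3 → 4 := by
    rintro ⟨c, hc, hpos⟩
    apply isSofic_of_almostMaps
    apply almostMaps_quot (cay_conn h1 hs hgen) (cay_finite h1 hs) cay_trans M
      (orbit_finite h1 hs M m hm hΓ') m hm
    intro r δ hδ
    have hpos' : ∀ r : ℕ, ∃ (N : ℕ) (G : SimpleGraph (Fin N)), 0 < N ∧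
        c * N ≤ ({v | ∃ f, BI (cay S) 1 r G v f}.ncard : ℝ) := by
      intro r
      obtain ⟨N, G, hN, hG⟩ := hpos r
      refine ⟨N, G, hN, hG.trans ?_⟩
      have : {v | BallIso G v (cay S) 1 r} ⊆ {v | ∃ f, BI (cay S) 1 r G v f} :=
        fun v hv => BallIso.toBI hv
      exact_mod_cast ncard_le_ncard this (toFinite _)
    obtain ⟨N, G, hN, hG⟩ := models_of_pos cay_trans c hc hpos' r δ hδ
    refine ⟨N, G, hN, le_trans ?_ hG⟩
    have : {v | ¬ BallIso G v (cay S) 1 r} ⊆ {v | ¬ ∃ f, BI (cay S) 1 r G v f} := by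
      rintro v hv ⟨f, hf⟩
      exact hv hf.toBallIso
    exact_mod_cast ncard_le_ncard this (toFinite _)
  tfae_have 4 → 1 := by
    intro h
    apply isSofic_of_injective h ((QuotientGroup.mk' M).comp (translHom S))
    rw [injective_iff_map_eq_one]
    intro g hg
    apply hΓ'
    rwa [MonoidHom.comp_apply, QuotientGroup.mk'_apply, QuotientGroup.eq_one_iff] at hg
  tfae_finish

/-- The special case of finite vertex stabilisers. -/
theorem equivalence_discrete (h1 : (1 : Γ) ∉ S) (hs : ∀ s ∈ S, s⁻¹ ∈ S)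
    (hgen : Subgroup.closure (S : Set Γ) = ⊤)
    (hK : Finite {k : cay S ≃g cay S // k 1 = 1}) :
    IsSofic Γ ↔ ∃ (N : ℕ → ℕ) (G : (n : ℕ) → SimpleGraph (Fin (N n))),
      ConvergesTo N G (cay S) 1 := by
  obtain ⟨R, hR⟩ := exists_radius (cay_conn h1 hs hgen) hK
  have hone : (1 : Γ) ∈ ball (cay S) 1 R := mem_ball_self _ _
  have := equivalence h1 hs hgen (⊥ : Subgroup (cay S ≃g cay S)) R (by
    intro a ha
    rw [Subgroup.mem_bot]
    exact hR a 1 (ha 1 hone) rfl ha) (by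
    rintro g ⟨a, ha, hag⟩
    rw [Subgroup.mem_bot] at ha
    have h2 := hag 1
    rw [ha, one_mul] at h2
    exact h2.symm)
  exact this.out 0 1

end Pool.Agent.H61.UC
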