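import Pool.Agent.H61.UC.Ball

/-!
The frame bundle over a finite graph that is locally isomorphic, at most vertices, to a
vertex-transitive graph with finite vertex stabilisers (problem MP_1644eb_al).
-/

open Set Filter Topology

namespace Pool.Agent.H61.UC

/-- number of good vertices near a given one -/
theorem card_near {W : Type*} {X : SimpleGraph W} {o : W}
    (htrans : ∀ z, ∃ a : X ≃g X, a o = z) (hfin : (ball X o 1).Finite)
    {N : ℕ} {G : SimpleGraph (Fin N)} {r1 L : ℕ} (hr : L + 1 ≤ r1)
    (good : Fin N → Prop) (ψ : Fin N → W → Fin N) (hψ : ∀ v, good v → BI X o r1 G v (ψ v))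
    (j : ℕ) (hj : j ≤ L) (u : Fin N) :
    {v | good v ∧ u ∈ ball G v j}.ncard ≤ (ball X o 1).ncard ^ j := by
  classical
  induction j generalizing u with
  | zero =>
    rw [pow_zero]
    have hsub : {v | good v ∧ u ∈ ball G v 0} ⊆ {u} := by
      rintro v ⟨_, hv⟩
      rw [ball_zero, mem_singleton_iff] at hv
      rw [hv]
      exact mem_singleton _
    exact (ncard_le_ncard hsub (toFinite _)).trans (ncard_singleton u).le
  | succ j ih =>
    by_cases hemp : ∃ v, good v ∧ u ∈ ball G v (j + 1)
    · obtain ⟨v, hv, hu⟩ := hemp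
      have hBI := hψ v hv
      have hu' := hu
      rw [← hBI.image0 (j + 1) (by omega)] at hu'
      obtain ⟨z, hz, hzu⟩ := hu'
      have himg := hBI.image hz (by rw [hzu]; exact hu) 1 (by omega)
      rw [hzu] at himg
      have hcard : (ball G u 1).ncard ≤ (ball X o 1).ncard := by
        obtain ⟨a, ha⟩ := htrans z
        rw [← himg, ← ha, ← aut_image a o 1, image_image]
        exact ncard_image_le hfin
      set T : Fin N → Finset (Fin N) := fun w =>
        Finset.univ.filter (fun v => good v ∧ w ∈ ball G v j) with hT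
      have hsub : {v | good v ∧ u ∈ ball G v (j + 1)} ⊆
          (((toFinite (ball G u 1)).toFinset.biUnion T : Finset (Fin N)) : Set (Fin N)) := by
        rintro v' ⟨hv', hu'⟩
        obtain ⟨w, hw, hwv⟩ := mem_ball_succ'.1 (ball_symm hu')
        rw [Finset.mem_coe, Finset.mem_biUnion]
        refine ⟨w, by rw [Set.Finite.mem_toFinset]; exact hw, ?_⟩
        rw [hT, Finset.mem_filter]
        exact ⟨Finset.mem_univ _, hv', ball_symm hwv⟩
      have h1 := ncard_le_ncard hsub (toFinite _)
      rw [ncard_coe_finset] at h1
      refine h1.trans ?_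
      refine (Finset.card_biUnion_le_card_mul _ T ((ball X o 1).ncard ^ j) ?_).trans ?_
      · intro w _
        have := ih (by omega) w
        rw [← ncard_coe_finset]
        refine le_trans (le_of_eq ?_) this
        congr 1
        ext v
        simp [hT]
      · rw [← ncard_eq_toFinset_card _ (toFinite _), pow_succ, mul_comm]
        exact Nat.mul_le_mul_left _ hcard
    · push Not at hemp
      have : {v | good v ∧ u ∈ ball G v (j + 1)} = ∅ := by
        ext v
        simp only [mem_empty_iff_false, iff_false]
        rintro ⟨ha, hb⟩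
        exact hemp v ha hb
      rw [this, ncard_empty]
      exact Nat.zero_le _

theorem card_bad {W : Type*} {X : SimpleGraph W} {o : W}
    (htrans : ∀ z, ∃ a : X ≃g X, a o = z) (hfin : (ball X o 1).Finite)
    {N : ℕ} {G : SimpleGraph (Fin N)} {r1 L : ℕ} (hr : L + 1 ≤ r1)
    (good : Fin N → Prop) (ψ : Fin N → W → Fin N) (hψ : ∀ v, good v → BI X o r1 G v (ψ v)) :
    {v | ¬ ∀ u ∈ ball G v L, good u}.ncard ≤
      {v | ¬ good v}.ncard * (1 + (ball X o 1).ncard ^ L) := by
  classical
  set T : Fin N → Finset (Fin N) := fun w =>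
    Finset.univ.filter (fun v => good v ∧ w ∈ ball G v L) with hT
  have hsub : {v | ¬ ∀ u ∈ ball G v L, good u} ⊆ {v | ¬ good v} ∪
      ((((toFinite {v | ¬ good v}).toFinset.biUnion T : Finset (Fin N))) : Set (Fin N)) := by
    intro v hv
    by_cases hg : good v
    · right
      have hv' : ∃ u ∈ ball G v L, ¬ good u := by
        by_contra hcon
        push Not at hcon
        exact hv hcon
      obtain ⟨u, hu, hu'⟩ := hv'
      rw [Finset.mem_coe, Finset.mem_biUnion]
      refine ⟨u, by rw [Set.Finite.mem_toFinset]; exact hu', ?_⟩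
      rw [hT, Finset.mem_filter]
      exact ⟨Finset.mem_univ _, hg, hu⟩
    · exact Or.inl hg
  have h1 := (ncard_le_ncard hsub (toFinite _)).trans (ncard_union_le _ _)
  rw [ncard_coe_finset] at h1
  have h2 := Finset.card_biUnion_le_card_mul ((toFinite {v | ¬ good v}).toFinset) T
    ((ball X o 1).ncard ^ L) (by
      intro w _
      have := card_near htrans hfin hr good ψ hψ L le_rfl w
      rw [← ncard_coe_finset]
      refine le_trans (le_of_eq ?_) this
      congr 1
      ext v
      simp [hT])
  rw [← ncard_eq_toFinset_card _ (toFinite _)] at h2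
  rw [mul_add, mul_one]
  exact h1.trans (Nat.add_le_add_left h2 _)

end Pool.Agent.H61.UC
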