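import Pool.Agent.H61.UC.Defs

/-!
Sofic groups, and passing from almost multiplicative maps to permutations
(problem MP_1644eb_al).
-/

open Set

namespace Pool.Agent.H61.UC

/-- The same with maps instead of permutations. -/
def AlmostMaps (A : Type*) [Group A] : Prop :=
  ∀ (F : Finset A) (ε : ℝ), 0 < ε → ∃ (V : Type) (_ : Finite V) (_ : Nonempty V)
    (σ : A → V → V),
    (∀ a ∈ F, ∀ b ∈ F, ({v | σ (a * b) v ≠ σ a (σ b v)}.ncard : ℝ) ≤ ε * Nat.card V) ∧
    ({v | σ 1 v ≠ v}.ncard : ℝ) ≤ ε * Nat.card V ∧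
    (∀ a ∈ F, a ≠ 1 → ({v | σ a v = v}.ncard : ℝ) ≤ ε * Nat.card V)

theorem exists_perm {V : Type*} [Finite V] (f : V → V) (I : Set V) (h : InjOn f I) :
    ∃ π : Equiv.Perm V, ∀ v ∈ I, π v = f v := by
  classical
  have := Fintype.ofFinite V
  let e : {v // v ∈ I} ≃ {v // v ∈ f '' I} := (h.bijOn_image).equiv f
  refine ⟨e.extendSubtype, fun v hv => ?_⟩
  rw [Equiv.extendSubtype_apply_of_mem _ v hv]
  rfl

theorem ncard_le_add {V : Type*} [Finite V] {S T U : Set V} (h : S ⊆ T ∪ U) :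
    (S.ncard : ℝ) ≤ T.ncard + U.ncard := by
  have h1 := ncard_le_ncard h (toFinite _)
  have h2 := ncard_union_le T U
  exact_mod_cast h1.trans h2

theorem isSofic_of_almostMaps {A : Type*} [Group A] (h : AlmostMaps A) : IsSofic A := by
  classical
  intro F ε hε
  set P : Finset A := F ∪ (F ×ˢ F).image (fun q => q.1 * q.2) with hP
  set F' : Finset A := P ∪ P.image (fun a => a⁻¹) with hF'
  obtain ⟨V, hV, hne, σ, h1, h2, h3⟩ := h F' (ε / 7) (by positivity)
  set I : A → Set V := fun a => {v | σ a⁻¹ (σ a v) = v} with hI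
  have hinj : ∀ a, InjOn (σ a) (I a) := by
    intro a x hx y hy hxy
    have hx' : σ a⁻¹ (σ a x) = x := hx
    have hy' : σ a⁻¹ (σ a y) = y := hy
    rw [← hx', ← hy', hxy]
  choose π hπ using fun a => exists_perm (σ a) (I a) (hinj a)
  have hFP : ∀ a ∈ F, a ∈ P := fun a ha => Finset.mem_union_left _ ha
  have hFFP : ∀ a ∈ F, ∀ b ∈ F, a * b ∈ P := fun a ha b hb =>
    Finset.mem_union_right _ (Finset.mem_image.2 ⟨(a, b), Finset.mem_product.2 ⟨ha, hb⟩, rfl⟩)
  have hPF' : ∀ a ∈ P, a ∈ F' := fun a ha => Finset.mem_union_left _ ha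
  have hPF'' : ∀ a ∈ P, a⁻¹ ∈ F' := fun a ha =>
    Finset.mem_union_right _ (Finset.mem_image.2 ⟨a, ha, rfl⟩)
  have hIc : ∀ a ∈ P, ((I a)ᶜ.ncard : ℝ) ≤ ε / 7 * Nat.card V + ε / 7 * Nat.card V := by
    intro a ha
    have hsub : (I a)ᶜ ⊆ {v | σ (a⁻¹ * a) v ≠ σ a⁻¹ (σ a v)} ∪ {v | σ 1 v ≠ v} := by
      intro v hv
      by_contra hcon
      rw [mem_union, not_or] at hcon
      obtain ⟨c1, c2⟩ := hcon
      have c1' : σ (a⁻¹ * a) v = σ a⁻¹ (σ a v) := by
        by_contra hc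
        exact c1 hc
      have c2' : σ 1 v = v := by
        by_contra hc
        exact c2 hc
      apply hv
      show σ a⁻¹ (σ a v) = v
      rw [← c1', inv_mul_cancel, c2']
    refine (ncard_le_add hsub).trans ?_
    exact add_le_add (h1 _ (hPF'' a ha) _ (hPF' a ha)) h2
  refine ⟨V, hV, hne, π, ?_, ?_⟩
  · intro a ha b hb
    have hsub : {v | π (a * b) v ≠ π a (π b v)} ⊆
        ((I (a * b))ᶜ ∪ (I b)ᶜ) ∪ ((π b).symm '' (I a)ᶜ ∪ {v | σ (a * b) v ≠ σ a (σ b v)}) := by
      intro v hv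
      by_contra hcon
      simp only [mem_union, not_or, mem_compl_iff, not_not] at hcon
      obtain ⟨⟨c1, c2⟩, c3, c4⟩ := hcon
      have c3' : π b v ∈ I a := by
        by_contra hc
        exact c3 ⟨π b v, hc, (π b).symm_apply_apply v⟩
      have c4' : σ (a * b) v = σ a (σ b v) := by
        by_contra hc
        exact c4 hc
      apply hv
      rw [hπ (a * b) v c1, c4', ← hπ b v c2, hπ a _ c3']
    have e1 := ncard_le_add hsub
    have e2 : (((I (a * b))ᶜ ∪ (I b)ᶜ).ncard : ℝ) ≤ ((I (a * b))ᶜ).ncard + ((I b)ᶜ).ncard :=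
      ncard_le_add (subset_refl _)
    have e3 : ((((π b).symm '' (I a)ᶜ ∪ {v | σ (a * b) v ≠ σ a (σ b v)})).ncard : ℝ) ≤
        ((π b).symm '' (I a)ᶜ).ncard + ({v | σ (a * b) v ≠ σ a (σ b v)}).ncard :=
      ncard_le_add (subset_refl _)
    have e4 : ((π b).symm '' (I a)ᶜ).ncard = ((I a)ᶜ).ncard :=
      ncard_image_of_injective _ (π b).symm.injective
    rw [e4] at e3
    have e5 := hIc _ (hFFP a ha b hb)
    have e6 := hIc _ (hFP b hb)
    have e7 := hIc _ (hFP a ha)
    have e8 := h1 _ (hPF' a (hFP a ha)) _ (hPF' b (hFP b hb))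
    linarith
  · intro a ha ha1
    have hsub : {v | π a v = v} ⊆ (I a)ᶜ ∪ {v | σ a v = v} := by
      intro v hv
      by_contra hcon
      simp only [mem_union, not_or, mem_compl_iff, not_not] at hcon
      apply hcon.2
      show σ a v = v
      rw [← hπ a v hcon.1]
      exact hv
    have e1 := ncard_le_add hsub
    have e2 := hIc _ (hFP a ha)
    have e3 := h3 _ (hPF' a (hFP a ha)) ha1
    have e4 : (0 : ℝ) ≤ ε * Nat.card V := by positivity
    linarith

/-- A group that embeds into a sofic group is sofic. -/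
theorem isSofic_of_injective {A B : Type*} [Group A] [Group B] (hB : IsSofic B) (f : A →* B)
    (hf : Function.Injective f) : IsSofic A := by
  classical
  intro F ε hε
  obtain ⟨V, hV, hne, σ, h1, h2⟩ := hB (F.image f) ε hε
  refine ⟨V, hV, hne, fun a => σ (f a), ?_, ?_⟩
  · intro a ha b hb
    simp only [map_mul]
    exact h1 _ (Finset.mem_image_of_mem f ha) _ (Finset.mem_image_of_mem f hb)
  · intro a ha ha1
    exact h2 _ (Finset.mem_image_of_mem f ha) (fun h => ha1 (hf (by rw [h, map_one])))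

end Pool.Agent.H61.UC
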