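import Pool.Agent.H61.UC.Rel
import Pool.Agent.H61.UC.Comp
import Pool.Agent.H61.UC.Perm

/-!
Soficity of `Aut X / M` for local limits of finite graphs (problem MP_1644eb_al).
-/

open Set Filter Topology

namespace Pool.Agent.H61.UC

section quot

variable {W : Type} {X : SimpleGraph W} {o : W} {M : Subgroup (X ≃g X)} {c m0 L r0 r1 N : ℕ}

/-- frames of radius `r1` in `G` -/
def Frames (X : SimpleGraph W) (o : W) (r1 : ℕ) {N : ℕ} (G : SimpleGraph (Fin N)) : Type :=
  {φ : W → Fin N // BI X o r1 G (φ o) φ}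

theorem one_small (o : W) (L : ℕ) : (1 : X ≃g X)⁻¹ o ∈ ball X o L := by
  rw [inv_one]
  exact mem_ball_self o L

/-- frames modulo `M` -/
def frSetoid (h : Setup X o M c m0 L r0 r1) (G : SimpleGraph (Fin N)) :
    Setoid (Frames X o r1 G) where
  r φ φ' := Tr M o m0 1 φ.1 φ'.1
  iseqv := by
    refine ⟨fun φ => Setup.refl M.one_mem, fun {φ φ'} ht => ?_, fun {φ φ' φ''} ht ht' => ?_⟩
    · have := h.inv (one_small o L) φ.2 φ'.2 ht
      rwa [inv_one] at this
    · have := h.trans (one_small o L) (one_small o L) φ.2 φ'.2 ht ht'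
      rwa [mul_one] at this

/-- The set of frames modulo `M`. -/
def Om (h : Setup X o M c m0 L r0 r1) (G : SimpleGraph (Fin N)) : Type :=
  Quotient (frSetoid h G)

/-- the class of a frame -/
def cl (h : Setup X o M c m0 L r0 r1) (G : SimpleGraph (Fin N)) (φ : Frames X o r1 G) : Om h G :=
  Quotient.mk (frSetoid h G) φ

theorem cl_eq (h : Setup X o M c m0 L r0 r1) (G : SimpleGraph (Fin N)) {φ φ' : Frames X o r1 G} :
    cl h G φ = cl h G φ' ↔ Tr M o m0 1 φ.1 φ'.1 :=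
  ⟨fun e => Quotient.exact e, fun e => Quotient.sound e⟩

theorem cl_surj (h : Setup X o M c m0 L r0 r1) (G : SimpleGraph (Fin N)) (ω : Om h G) :
    ∃ φ, cl h G φ = ω := Quotient.exists_rep ω

theorem tr_of_eq {φ φ' : W → Fin N} (he : ∀ x ∈ ball X o m0, φ' x = φ x) :
    Tr M o m0 1 φ φ' :=
  ⟨1, M.one_mem, fun x hx => by rw [inv_one]; exact he x hx⟩

theorem finite_om (h : Setup X o M c m0 L r0 r1) (G : SimpleGraph (Fin N))
    (hfin : (ball X o m0).Finite) : Finite (Om h G) := by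
  have hB : Finite (ball X o m0) := hfin
  choose φ hφ using cl_surj h G
  apply Finite.of_injective (fun ω : Om h G => fun x : ball X o m0 => (φ ω).1 x)
  intro ω ω' he
  rw [← hφ ω, ← hφ ω', cl_eq]
  apply tr_of_eq
  intro x hx
  exact (congrFun he ⟨x, hx⟩).symm

/-- The number of classes of frames over one vertex. -/
theorem card_over (h : Setup X o M c m0 L r0 r1) (G : SimpleGraph (Fin N))
    (hfin : (ball X o m0).Finite) (v : Fin N) :
    {ω : Om h G | ∃ φ, cl h G φ = ω ∧ φ.1 o = v}.ncard ≤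
      Nat.card (ball X o m0 → ball X o m0) := by
  classical
  have hB : Finite (ball X o m0) := hfin
  have hOm := finite_om h G hfin
  have hle0 := h.le0
  have hle1 := h.le1
  by_cases hemp : ∃ φ0 : Frames X o r1 G, φ0.1 o = v
  · obtain ⟨φ0, hφ0⟩ := hemp
    have hne : Nonempty (ball X o m0) := ⟨⟨o, mem_ball_self o m0⟩⟩
    have hneF : Nonempty (Frames X o r1 G) := ⟨φ0⟩
    have key : ∀ ω : Om h G, ω ∈ {ω : Om h G | ∃ φ, cl h G φ = ω ∧ φ.1 o = v} →
        ∃ (g : ball X o m0 → ball X o m0) (φ : Frames X o r1 G), cl h G φ = ω ∧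
          ∀ x : ball X o m0, φ.1 x = φ0.1 (g x) := by
      rintro ω ⟨φ, h1, h2⟩
      have h3 : ∀ x : ball X o m0, ∃ y : ball X o m0, φ.1 x = φ0.1 y := by
        intro x
        have q1 : φ.1 x ∈ ball G (φ.1 o) m0 := φ.2.mem (by omega) x.2
        rw [h2, ← hφ0, ← φ0.2.image0 m0 (by omega)] at q1
        obtain ⟨y, hy, hyx⟩ := q1
        exact ⟨⟨y, hy⟩, hyx.symm⟩
      choose g hg using h3
      exact ⟨g, φ, h1, hg⟩
    choose! g φ hg1 hg2 using key
    have := ncard_le_ncard_of_injOn (s := {ω : Om h G | ∃ φ, cl h G φ = ω ∧ φ.1 o = v})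
      (t := (univ : Set (ball X o m0 → ball X o m0))) g (fun _ _ => mem_univ _) (by
        intro ω hω ω' hω' he
        rw [← hg1 ω hω, ← hg1 ω' hω', cl_eq]
        apply tr_of_eq
        intro x hx
        rw [hg2 ω' hω' ⟨x, hx⟩, hg2 ω hω ⟨x, hx⟩, he]) (toFinite _)
    rwa [ncard_univ] at this
  · have : {ω : Om h G | ∃ φ, cl h G φ = ω ∧ φ.1 o = v} = ∅ := by
      ext ω
      simp only [mem_empty_iff_false, iff_false]
      rintro ⟨φ, _, h2⟩
      exact hemp ⟨φ, h2⟩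
    rw [this, ncard_empty]
    exact Nat.zero_le _

/-- The number of classes all of whose frames sit over bad vertices. -/
theorem card_badcl (h : Setup X o M c m0 L r0 r1) (G : SimpleGraph (Fin N))
    (hfin : (ball X o m0).Finite) (P : Fin N → Prop) :
    {ω : Om h G | ∀ φ, cl h G φ = ω → ¬ P (φ.1 o)}.ncard ≤
      {v | ¬ P v}.ncard * Nat.card (ball X o m0 → ball X o m0) := by
  classical
  have hOm := finite_om h G hfin
  have := Fintype.ofFinite (Om h G)
  set T : Fin N → Finset (Om h G) := fun v =>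
    Finset.univ.filter (fun ω => ∃ φ, cl h G φ = ω ∧ φ.1 o = v) with hT
  have hsub : {ω : Om h G | ∀ φ, cl h G φ = ω → ¬ P (φ.1 o)} ⊆
      (((toFinite {v | ¬ P v}).toFinset.biUnion T : Finset (Om h G)) : Set (Om h G)) := by
    intro ω hω
    obtain ⟨φ, hφ⟩ := cl_surj h G ω
    rw [Finset.mem_coe, Finset.mem_biUnion]
    refine ⟨φ.1 o, by rw [Set.Finite.mem_toFinset]; exact hω φ hφ, ?_⟩
    rw [hT, Finset.mem_filter]
    exact ⟨Finset.mem_univ _, φ, hφ, rfl⟩
  have h1 := ncard_le_ncard hsub (toFinite _)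
  rw [ncard_coe_finset] at h1
  refine h1.trans ((Finset.card_biUnion_le_card_mul _ T
    (Nat.card (ball X o m0 → ball X o m0)) ?_).trans ?_)
  · intro v _
    have := card_over h G hfin v
    rw [← ncard_coe_finset]
    refine le_trans (le_of_eq ?_) this
    congr 1
    ext ω
    simp [hT]
  · rw [← ncard_eq_toFinset_card _ (toFinite _)]

/-- Lower bound for the number of classes. -/
theorem card_good (h : Setup X o M c m0 L r0 r1) (G : SimpleGraph (Fin N))
    (hfin : ∀ j, (ball X o j).Finite) :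
    {v | ∃ f, BI X o r1 G v f}.ncard ≤ (ball X o c).ncard * Nat.card (Om h G) := by
  classical
  have hOm := finite_om h G (hfin m0)
  have := Fintype.ofFinite (Om h G)
  have hle0 := h.le0
  have hle1 := h.le1
  by_cases hemp : ∃ v, ∃ f, BI X o r1 G v f
  · obtain ⟨v0, f0, hf0⟩ := hemp
    let φ0 : Frames X o r1 G := ⟨f0, by rw [hf0.1]; exact hf0⟩
    have key : ∀ v, (∃ f, BI X o r1 G v f) → ∃ φ : Frames X o r1 G, φ.1 o = v := by
      rintro v ⟨f, hf⟩
      exact ⟨⟨f, by rw [hf.1]; exact hf⟩, hf.1⟩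
    have hneF : Nonempty (Frames X o r1 G) := ⟨φ0⟩
    choose! φ hφ using key
    set s : Finset (Fin N) := Finset.univ.filter (fun v => ∃ f, BI X o r1 G v f) with hs
    have h1 : s.card ≤ (ball X o c).ncard * (s.image (fun v => cl h G (φ v))).card := by
      apply Finset.card_le_mul_card_image
      intro ω _
      by_cases hv : ∃ v ∈ s, cl h G (φ v) = ω
      · obtain ⟨v, hvs, hvω⟩ := hv
        have hvg := (Finset.mem_filter.1 hvs).2
        have hsub : ((Finset.filter (fun x => cl h G (φ x) = ω) s : Finset (Fin N)) :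
            Set (Fin N)) ⊆ (φ v).1 '' ball X o c := by
          intro u hu
          rw [Finset.mem_coe, Finset.mem_filter] at hu
          obtain ⟨hus, huω⟩ := hu
          have hug := (Finset.mem_filter.1 hus).2
          have htr := (cl_eq h G).1 (hvω.trans huω.symm)
          obtain ⟨n, hn, hx⟩ := htr
          have q1 := hx o (mem_ball_self o m0)
          rw [hφ u hug, inv_one] at q1
          exact ⟨n o, h.small n hn o, q1.symm⟩
        have h2 := ncard_le_ncard hsub ((hfin c).image _)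
        rw [ncard_coe_finset] at h2
        exact h2.trans (ncard_image_le (hfin c))
      · have : Finset.filter (fun x => cl h G (φ x) = ω) s = ∅ := by
          ext u
          simp only [Finset.mem_filter, Finset.notMem_empty, iff_false, not_and]
          intro hu hω
          exact hv ⟨u, hu, hω⟩
        rw [this, Finset.card_empty]
        exact Nat.zero_le _
    have h3 : (s.image (fun v => cl h G (φ v))).card ≤ Nat.card (Om h G) := by
      rw [Nat.card_eq_fintype_card]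
      exact Finset.card_le_univ _
    have h4 : {v | ∃ f, BI X o r1 G v f}.ncard = s.card := by
      rw [← ncard_coe_finset]
      congr 1
      ext v
      simp [hs]
    rw [h4]
    exact h1.trans (Nat.mul_le_mul_left _ h3)
  · have : {v | ∃ f, BI X o r1 G v f} = ∅ := by
      ext v
      simp only [mem_empty_iff_false, iff_false]
      intro hv
      exact hemp ⟨v, hv⟩
    rw [this, ncard_empty]
    exact Nat.zero_le _

/-- The action on classes of frames. -/
theorem exists_sigma (h : Setup X o M c m0 L r0 r1) (G : SimpleGraph (Fin N)) (a : X ≃g X)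
    (ha : a⁻¹ o ∈ ball X o L) :
    ∃ σ : Om h G → Om h G, ∀ φ φ' : Frames X o r1 G, Tr M o m0 a φ.1 φ'.1 →
      σ (cl h G φ) = cl h G φ' := by
  classical
  refine ⟨fun ω => if hω : ∃ ω', ∃ φ φ', cl h G φ = ω ∧ cl h G φ' = ω' ∧ Tr M o m0 a φ.1 φ'.1
    then hω.choose else ω, fun φ φ' ht => ?_⟩
  have hω : ∃ ω', ∃ φ1 φ1', cl h G φ1 = cl h G φ ∧ cl h G φ1' = ω' ∧ Tr M o m0 a φ1.1 φ1'.1 :=
    ⟨cl h G φ', φ, φ', rfl, rfl, ht⟩
  show (if hω : ∃ ω', ∃ φ1 φ1', cl h G φ1 = cl h G φ ∧ cl h G φ1' = ω' ∧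
    Tr M o m0 a φ1.1 φ1'.1 then hω.choose else cl h G φ) = cl h G φ'
  rw [dif_pos hω]
  obtain ⟨φ1, φ1', e1, e2, e3⟩ := hω.choose_spec
  rw [← e2, cl_eq]
  have e1' := (cl_eq h G).1 e1
  -- Tr 1 φ1 φ, Tr a φ φ', Tr a φ1 φ1'
  have t1 : Tr M o m0 (a * 1) φ1.1 φ'.1 := h.trans (one_small o L) ha φ1.2 φ.2 e1' ht
  rw [mul_one] at t1
  have t2 : Tr M o m0 a⁻¹ φ1'.1 φ1.1 := h.inv ha φ1.2 φ1'.2 e3
  have t3 : Tr M o m0 (a * a⁻¹) φ1'.1 φ'.1 :=
    h.trans (by rw [inv_inv]; exact inv_small ha) ha φ1'.2 φ1.2 t2 t1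
  rwa [mul_inv_cancel] at t3

end quot

theorem almostMaps_quot {W : Type} {X : SimpleGraph W} {o : W}
    (hconn : ∀ x, ∃ j, x ∈ ball X o j) (hfin : ∀ j, (ball X o j).Finite)
    (htrans : ∀ z, ∃ a : X ≃g X, a o = z) (M : Subgroup (X ≃g X)) [hM : M.Normal]
    (horb : {x | ∃ n ∈ M, n o = x}.Finite) (m0 : ℕ)
    (hstab : ∀ a : X ≃g X, (∀ x ∈ ball X o m0, a x = x) → a ∈ M)
    (hlim : ∀ r : ℕ, ∀ δ : ℝ, 0 < δ → ∃ (N : ℕ) (G : SimpleGraph (Fin N)), 0 < N ∧
      ({v | ¬ BallIso G v X o r}.ncard : ℝ) ≤ δ * N) :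
    AlmostMaps ((X ≃g X) ⧸ M) := by
  classical
  intro F ε hε
  -- the radius of the orbits of `M`
  obtain ⟨c, hc⟩ : ∃ c, ∀ n ∈ M, n o ∈ ball X o c := by
    choose j hj using hconn
    obtain ⟨c, hc⟩ := (horb.image j).bddAbove
    refine ⟨c, fun n hn => ?_⟩
    exact ball_mono (hc (mem_image_of_mem j ⟨n, hn, rfl⟩)) (hj (n o))
  have hsmall : ∀ n ∈ M, ∀ x, n x ∈ ball X x c := by
    intro n hn x
    obtain ⟨a, rfl⟩ := htrans x
    have h1 := hM.conj_mem n hn a⁻¹
    rw [inv_inv] at h1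
    have h2 := aut_mem a (hc _ h1)
    have e : a ((a⁻¹ * n * a) o) = n (a o) := by
      show a (a⁻¹ (n (a o))) = n (a o)
      rw [RelIso.apply_inv_self]
    rwa [e] at h2
  -- representatives
  let s : ((X ≃g X) ⧸ M) → (X ≃g X) := fun q => q.out
  have hs : ∀ q : (X ≃g X) ⧸ M, ((s q : X ≃g X) : (X ≃g X) ⧸ M) = q := fun q =>
    Quotient.out_eq' q
  obtain ⟨L, hLF, hLFF, hL1⟩ : ∃ L, (∀ a ∈ F, (s a)⁻¹ o ∈ ball X o L) ∧
      (∀ a ∈ F, ∀ b ∈ F, (s (a * b))⁻¹ o ∈ ball X o L) ∧ (s 1)⁻¹ o ∈ ball X o L := by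
    choose j hj using fun a : (X ≃g X) ⧸ M => hconn ((s a)⁻¹ o)
    obtain ⟨L1, hL1⟩ := (F.finite_toSet.image j).bddAbove
    obtain ⟨L2, hL2⟩ := (((F ×ˢ F).finite_toSet).image (fun q => j (q.1 * q.2))).bddAbove
    refine ⟨L1 + L2 + j 1, fun a ha => ?_, fun a ha b hb => ?_, ?_⟩
    · have := hL1 (mem_image_of_mem j (Finset.mem_coe.2 ha))
      exact ball_mono (by omega) (hj a)
    · have hab : ((a, b) : ((X ≃g X) ⧸ M) × ((X ≃g X) ⧸ M)) ∈ F ×ˢ F :=
        Finset.mem_product.2 ⟨ha, hb⟩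
      have := hL2 (mem_image_of_mem
        (fun q : ((X ≃g X) ⧸ M) × ((X ≃g X) ⧸ M) => j (q.1 * q.2)) (Finset.mem_coe.2 hab))
      have h2 : j (a * b) ≤ L2 := this
      exact ball_mono (by omega) (hj (a * b))
    · exact ball_mono (by omega) (hj 1)
  obtain ⟨r0, hr0, hcomp⟩ := exists_aut hconn hfin (m0 + L + 2 * c)
  set r1 : ℕ := L + (c + r0) + (2 * L + 1) with hr1
  have h : Setup X o M c m0 L r0 r1 := ⟨hM, hsmall, hstab, hcomp, hr0, by omega⟩
  set D : ℕ := (ball X o 1).ncard with hD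
  set κ : ℕ := Nat.card (ball X o m0 → ball X o m0) with hκ
  set c' : ℕ := (ball X o c).ncard with hc'
  set δ : ℝ := min (1 / 2) (ε / (2 * (κ + 1) * (1 + D ^ (2 * L)) * (c' + 1))) with hδ
  have hδpos : 0 < δ := by
    rw [hδ, lt_min_iff]
    constructor
    · norm_num
    · positivity
  obtain ⟨N, G, hN, hbad⟩ := hlim r1 δ hδpos
  set good : Fin N → Prop := fun v => ∃ f, BI X o r1 G v f with hgood
  have hψ' : ∀ v, ∃ f : W → Fin N, good v → BI X o r1 G v f := by
    intro v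
    by_cases hv : good v
    · obtain ⟨f, hf⟩ := hv
      exact ⟨f, fun _ => hf⟩
    · exact ⟨fun _ => v, fun h => absurd h hv⟩
  choose ψ hψ using hψ'
  set SG : Fin N → Prop := fun v => ∀ u ∈ ball G v (2 * L), good u with hSG
  have hOm := finite_om h G (hfin m0)
  -- counting
  have hN' : (0 : ℝ) < N := by exact_mod_cast hN
  have hbad' : ({v | ¬ good v}.ncard : ℝ) ≤ δ * N := by
    refine le_trans ?_ hbad
    have : {v | ¬ good v} ⊆ {v | ¬ BallIso G v X o r1} := by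
      intro v hv hv'
      exact hv (BallIso.toBI hv')
    exact_mod_cast ncard_le_ncard this (toFinite _)
  have hgoodcard : (N : ℝ) / 2 ≤ ({v | good v}.ncard : ℝ) := by
    have h4 := ncard_add_ncard_compl {v | good v}
    rw [Nat.card_fin] at h4
    have h5 : ({v | good v}.ncard : ℝ) + ({v | ¬ good v}.ncard : ℝ) = N := by exact_mod_cast h4
    have h6 : δ * N ≤ 1 / 2 * N := mul_le_mul_of_nonneg_right (min_le_left _ _) hN'.le
    linarith
  have hOmcard : (N : ℝ) ≤ 2 * (c' + 1) * Nat.card (Om h G) := by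
    have h1 := card_good h G hfin
    have h2 : ({v | good v}.ncard : ℝ) ≤ c' * Nat.card (Om h G) := by exact_mod_cast h1
    have h3 : (0 : ℝ) ≤ Nat.card (Om h G) := by positivity
    nlinarith
  have hOmne : Nonempty (Om h G) := by
    by_contra hcon
    rw [not_nonempty_iff] at hcon
    have : Nat.card (Om h G) = 0 := Nat.card_of_isEmpty
    rw [this] at hOmcard
    simp only [Nat.cast_zero, mul_zero] at hOmcard
    linarith
  have hfail : ({ω : Om h G | ∀ φ, cl h G φ = ω → ¬ SG (φ.1 o)}.ncard : ℝ) ≤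
      ε * Nat.card (Om h G) := by
    have h1 := card_badcl h G (hfin m0) SG
    have h2 := card_bad htrans (hfin 1) (G := G) (r1 := r1) (L := 2 * L) (by omega) good ψ hψ
    have h1' : ({ω : Om h G | ∀ φ, cl h G φ = ω → ¬ SG (φ.1 o)}.ncard : ℝ) ≤
        ({v | ¬ SG v}.ncard : ℝ) * κ := by exact_mod_cast h1
    have h2' : ({v | ¬ SG v}.ncard : ℝ) ≤ ({v | ¬ good v}.ncard : ℝ) * (1 + D ^ (2 * L)) := by
      exact_mod_cast h2
    have hp1 : (0 : ℝ) < 1 + D ^ (2 * L) := by positivity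
    have hp2 : (0 : ℝ) < (κ : ℝ) + 1 := by positivity
    have hp3 : (0 : ℝ) < (c' : ℝ) + 1 := by positivity
    have hp4 : (0 : ℝ) ≤ Nat.card (Om h G) := by positivity
    calc ({ω : Om h G | ∀ φ, cl h G φ = ω → ¬ SG (φ.1 o)}.ncard : ℝ)
        ≤ ({v | ¬ SG v}.ncard : ℝ) * κ := h1'
      _ ≤ ({v | ¬ SG v}.ncard : ℝ) * (κ + 1) :=
          mul_le_mul_of_nonneg_left (by linarith) (by positivity)
      _ ≤ (({v | ¬ good v}.ncard : ℝ) * (1 + D ^ (2 * L))) * (κ + 1) :=
          mul_le_mul_of_nonneg_right h2' hp2.le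
      _ ≤ ((δ * N) * (1 + D ^ (2 * L))) * (κ + 1) :=
          mul_le_mul_of_nonneg_right (mul_le_mul_of_nonneg_right hbad' hp1.le) hp2.le
      _ ≤ ((δ * (2 * (c' + 1) * Nat.card (Om h G))) * (1 + D ^ (2 * L))) * (κ + 1) :=
          mul_le_mul_of_nonneg_right (mul_le_mul_of_nonneg_right
            (mul_le_mul_of_nonneg_left hOmcard hδpos.le) hp1.le) hp2.le
      _ = δ * (2 * (κ + 1) * (1 + D ^ (2 * L)) * (c' + 1)) * Nat.card (Om h G) := by ring
      _ ≤ ε * Nat.card (Om h G) := by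
          apply mul_le_mul_of_nonneg_right _ hp4
          have : δ ≤ ε / (2 * (κ + 1) * (1 + D ^ (2 * L)) * (c' + 1)) := min_le_right _ _
          rwa [le_div_iff₀ (by positivity)] at this
  have hle : ∀ S : Set (Om h G), (∀ ω ∈ S, ∀ φ, cl h G φ = ω → ¬ SG (φ.1 o)) →
      (S.ncard : ℝ) ≤ ε * Nat.card (Om h G) := by
    intro S hS
    refine le_trans ?_ hfail
    exact_mod_cast ncard_le_ncard (s := S)
      (t := {ω : Om h G | ∀ φ, cl h G φ = ω → ¬ SG (φ.1 o)}) hS (toFinite _)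
  -- the maps
  have hσ' : ∀ q : (X ≃g X) ⧸ M, ∃ σ : Om h G → Om h G, (s q)⁻¹ o ∈ ball X o L →
      ∀ φ φ' : Frames X o r1 G, Tr M o m0 (s q) φ.1 φ'.1 → σ (cl h G φ) = cl h G φ' := by
    intro q
    by_cases hq : (s q)⁻¹ o ∈ ball X o L
    · obtain ⟨σ, hσ⟩ := exists_sigma h G (s q) hq
      exact ⟨σ, fun _ => hσ⟩
    · exact ⟨id, fun h => absurd h hq⟩
  choose σ hσ using hσ'
  -- moving a frame over a super-good vertex
  have hmove : ∀ (φ : Frames X o r1 G) (i : ℕ), (∀ u ∈ ball G (φ.1 o) (L + i), good u) →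
      ∀ q, (s q)⁻¹ o ∈ ball X o L → ∃ φ' : Frames X o r1 G, Tr M o m0 (s q) φ.1 φ'.1 ∧
        ∀ u ∈ ball G (φ'.1 o) i, good u := by
    intro φ i hφ q hq
    have hmem : φ.1 ((s q)⁻¹ o) ∈ ball G (φ.1 o) L := φ.2.mem (by omega) hq
    have hg : good (φ.1 ((s q)⁻¹ o)) := hφ _ (ball_mono (by omega) hmem)
    obtain ⟨f, hf1, hf2, hf3⟩ := h.exist hq φ.2 hg
    refine ⟨⟨f, hf1⟩, ⟨1, M.one_mem, fun x hx => ?_⟩, ?_⟩
    · exact hf3 x (ball_mono (by omega) hx)
    · intro u hu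
      apply hφ
      have hu' : u ∈ ball G (φ.1 ((s q)⁻¹ o)) i := by
        rw [← hf2]
        exact hu
      exact ball_trans hmem hu'
  have hSG2 : ∀ v, SG v → ∀ u ∈ ball G v (L + L), good u := by
    intro v hv u hu
    exact hv u (ball_mono (by omega) hu)
  refine ⟨Om h G, hOm, hOmne, σ, ?_, ?_, ?_⟩
  · intro a ha b hb
    apply hle
    rintro ω hω φ rfl hsg
    apply hω
    obtain ⟨φ', ht', hg'⟩ := hmove φ L (hSG2 _ hsg) b (hLF b hb)
    obtain ⟨φ'', ht'', -⟩ := hmove φ' 0 (fun u hu => hg' u (ball_mono (by omega) hu)) a (hLF a ha)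
    have t3 : Tr M o m0 (s a * s b) φ.1 φ''.1 := h.trans (hLF b hb) (hLF a ha) φ.2 φ'.2 ht' ht''
    have hab : (s (a * b))⁻¹ * (s a * s b) ∈ M := by
      rw [← QuotientGroup.eq, QuotientGroup.mk_mul, hs, hs, hs]
    have t4 : Tr M o m0 (s (a * b)) φ.1 φ''.1 := h.coset hab t3
    rw [hσ (a * b) (hLFF a ha b hb) φ φ'' t4, hσ b (hLF b hb) φ φ' ht',
      hσ a (hLF a ha) φ' φ'' ht'']
  · apply hle
    rintro ω hω φ rfl _
    apply hω
    have h1M : s 1 ∈ M := by
      have := hs 1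
      rwa [QuotientGroup.eq_one_iff] at this
    exact hσ 1 hL1 φ φ (Setup.refl h1M)
  · intro a ha ha1
    apply hle
    rintro ω hω φ rfl hsg
    obtain ⟨φ', ht', -⟩ := hmove φ L (hSG2 _ hsg) a (hLF a ha)
    have e1 : cl h G φ' = cl h G φ := by
      rw [← hσ a (hLF a ha) φ φ' ht']
      exact hω
    have t1 := (cl_eq h G).1 e1
    have t2 : Tr M o m0 (1 * s a) φ.1 φ.1 := h.trans (hLF a ha) (one_small o L) φ.2 φ'.2 ht' t1
    rw [one_mul] at t2
    have h3 := h.free (hLF a ha) φ.2 t2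
    apply ha1
    rw [← hs a, QuotientGroup.eq_one_iff]
    exact h3

end Pool.Agent.H61.UC
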