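import Pool.Agent.H61.UC.Frame

/-!
Frames modulo a normal subgroup of the automorphism group (problem MP_1644eb_al).
-/

open Set Filter Topology

namespace Pool.Agent.H61.UC

variable {W V : Type*} {X : SimpleGraph W} {G : SimpleGraph V} {o : W}

/-- `φ'` agrees with `φ ∘ a⁻¹` modulo `M` on the ball of radius `p`. -/
def Tr (M : Subgroup (X ≃g X)) (o : W) (p : ℕ) (a : X ≃g X) (φ φ' : W → V) : Prop :=
  ∃ n ∈ M, ∀ x ∈ ball X o p, φ' x = φ (a⁻¹ (n x))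

/-- standing assumptions -/
structure Setup (X : SimpleGraph W) (o : W) (M : Subgroup (X ≃g X)) (c m0 L r0 r1 : ℕ) : Prop where
  normal : M.Normal
  small : ∀ n ∈ M, ∀ x, n x ∈ ball X x c
  stab : ∀ a : X ≃g X, (∀ x ∈ ball X o m0, a x = x) → a ∈ M
  comp : ∀ h : W → W, BI X o r0 X o h →
    ∃ k : X ≃g X, k o = o ∧ ∀ x ∈ ball X o (m0 + L + 2 * c), h x = k x
  le0 : m0 + L + 2 * c ≤ r0
  le1 : L + (c + r0) ≤ r1

variable {M : Subgroup (X ≃g X)} {c m0 L r0 r1 : ℕ}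

/-- enlarging the radius -/
theorem Setup.restore (h : Setup X o M c m0 L r0 r1) {a : X ≃g X} (ha : a⁻¹ o ∈ ball X o L)
    {φ φ' : W → V} (hφ : BI X o r1 G (φ o) φ) (hφ' : BI X o r1 G (φ' o) φ')
    (ht : Tr M o m0 a φ φ') : Tr M o (m0 + L + 2 * c) a φ φ' := by
  obtain ⟨n, hn, hx⟩ := ht
  have hle0 := h.le0
  have hle1 := h.le1
  -- χ = φ ∘ a⁻¹
  have b1 : BI X o (c + r0) G (φ (a⁻¹ o)) (fun x => φ (a⁻¹ x)) :=
    (hφ.mono (n := L + (c + r0)) hle1).comp_aut a⁻¹ ha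
  have b2 : BI X o r0 G (φ (a⁻¹ (n o))) (fun x => φ (a⁻¹ (n x))) :=
    b1.comp_aut n (h.small n hn o)
  have hbase : φ' o = φ (a⁻¹ (n o)) := hx o (mem_ball_self o m0)
  have b3 : BI X o r0 G (φ (a⁻¹ (n o))) φ' := by
    rw [← hbase]
    exact hφ'.mono (by omega)
  obtain ⟨g, hg1, hg2⟩ := b2.compare b3
  obtain ⟨k, hk1, hk2⟩ := h.comp g hg1
  have hkM : k ∈ M := by
    apply h.stab
    intro x hxm
    have q1 := hg2 x (ball_mono (by omega) hxm)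
    rw [hk2 x (ball_mono (by omega) hxm), hx x hxm] at q1
    have hkx : k x ∈ ball X o r0 := by
      have := aut_mem k hxm
      rw [hk1] at this
      exact ball_mono (by omega) this
    exact b2.2.1 hkx (ball_mono (by omega) hxm) q1
  refine ⟨n * k, M.mul_mem hn hkM, fun x hxm => ?_⟩
  rw [← hg2 x (ball_mono (by omega) hxm), hk2 x hxm]
  rfl

theorem Setup.refl {φ : W → V} {a : X ≃g X} (ha : a ∈ M) : Tr M o m0 a φ φ :=
  ⟨a, ha, fun x _ => by rw [RelIso.inv_apply_self]⟩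

theorem inv_small {a : X ≃g X} (ha : a⁻¹ o ∈ ball X o L) : a o ∈ ball X o L := by
  have := aut_mem a ha
  rw [RelIso.apply_inv_self] at this
  exact ball_symm this

theorem Setup.inv (h : Setup X o M c m0 L r0 r1) {a : X ≃g X} (ha : a⁻¹ o ∈ ball X o L)
    {φ φ' : W → V} (hφ : BI X o r1 G (φ o) φ) (hφ' : BI X o r1 G (φ' o) φ')
    (ht : Tr M o m0 a φ φ') : Tr M o m0 a⁻¹ φ' φ := by
  obtain ⟨n, hn, hx⟩ := h.restore ha hφ hφ' ht
  have hnorm := h.normal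
  refine ⟨a⁻¹ * n⁻¹ * a, ?_, fun x hxm => ?_⟩
  · have := hnorm.conj_mem n⁻¹ (M.inv_mem hn) a⁻¹
    rwa [inv_inv] at this
  · have e : (a⁻¹)⁻¹ ((a⁻¹ * n⁻¹ * a) x) = n⁻¹ (a x) := by
      rw [inv_inv]
      show a (a⁻¹ (n⁻¹ (a x))) = n⁻¹ (a x)
      rw [RelIso.apply_inv_self]
    rw [e]
    have hax : a x ∈ ball X o (L + m0) := ball_trans (inv_small ha) (aut_mem a hxm)
    have hnx : n⁻¹ (a x) ∈ ball X o (m0 + L + 2 * c) := by
      have := ball_trans hax (h.small n⁻¹ (M.inv_mem hn) (a x))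
      exact ball_mono (by omega) this
    rw [hx _ hnx, RelIso.apply_inv_self, RelIso.inv_apply_self]

theorem Setup.trans (h : Setup X o M c m0 L r0 r1) {a b : X ≃g X} (ha : a⁻¹ o ∈ ball X o L)
    (hb : b⁻¹ o ∈ ball X o L) {φ φ' φ'' : W → V} (hφ : BI X o r1 G (φ o) φ)
    (hφ' : BI X o r1 G (φ' o) φ') (ht : Tr M o m0 a φ φ') (ht' : Tr M o m0 b φ' φ'') :
    Tr M o m0 (b * a) φ φ'' := by
  obtain ⟨n, hn, hx⟩ := h.restore ha hφ hφ' ht
  obtain ⟨n', hn', hx'⟩ := ht'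
  have hnorm := h.normal
  refine ⟨(b * n * b⁻¹) * n', M.mul_mem (hnorm.conj_mem n hn b) hn', fun x hxm => ?_⟩
  have e : (b * a)⁻¹ ((b * n * b⁻¹ * n') x) = a⁻¹ (n (b⁻¹ (n' x))) := by
    rw [mul_inv_rev]
    show a⁻¹ (b⁻¹ (b (n (b⁻¹ (n' x))))) = _
    rw [RelIso.inv_apply_self]
  rw [e, hx' x hxm]
  apply hx
  have q1 : n' x ∈ ball X o (m0 + c) := ball_trans hxm (h.small n' hn' x)
  have q2 : b⁻¹ (n' x) ∈ ball X o (L + (m0 + c)) := ball_trans hb (aut_mem b⁻¹ q1)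
  exact ball_mono (by omega) q2

/-- only the class of `a` matters -/
theorem Setup.coset (h : Setup X o M c m0 L r0 r1) {a b : X ≃g X} (hab : b⁻¹ * a ∈ M)
    {φ φ' : W → V} (ht : Tr M o m0 a φ φ') : Tr M o m0 b φ φ' := by
  obtain ⟨n, hn, hx⟩ := ht
  have hnorm := h.normal
  -- b⁻¹ n' = a⁻¹ n with n' = b a⁻¹ n
  refine ⟨b * a⁻¹ * n, ?_, fun x hxm => ?_⟩
  · apply M.mul_mem _ hn
    have h1 : (b⁻¹ * a)⁻¹ ∈ M := M.inv_mem hab
    have h2 := hnorm.conj_mem _ h1 b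
    have e : b * (b⁻¹ * a)⁻¹ * b⁻¹ = b * a⁻¹ := by group
    rwa [e] at h2
  · rw [hx x hxm]
    show φ (a⁻¹ (n x)) = φ (b⁻¹ (b (a⁻¹ (n x))))
    rw [RelIso.inv_apply_self]

/-- existence of the moved frame -/
theorem Setup.exist (h : Setup X o M c m0 L r0 r1) {a : X ≃g X} (ha : a⁻¹ o ∈ ball X o L)
    {φ : W → V} (hφ : BI X o r1 G (φ o) φ)
    (hgood : ∃ f : W → V, BI X o r1 G (φ (a⁻¹ o)) f) :
    ∃ φ' : W → V, BI X o r1 G (φ' o) φ' ∧ φ' o = φ (a⁻¹ o) ∧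
      ∀ x ∈ ball X o (m0 + L), φ' x = φ (a⁻¹ x) := by
  obtain ⟨f, hf⟩ := hgood
  have hle0 := h.le0
  have hle1 := h.le1
  have b1 : BI X o (c + r0) G (φ (a⁻¹ o)) (fun x => φ (a⁻¹ x)) :=
    (hφ.mono (n := L + (c + r0)) hle1).comp_aut a⁻¹ ha
  obtain ⟨g, hg1, hg2⟩ := (hf.mono (n := r0) (by omega)).compare (b1.mono (by omega))
  obtain ⟨k, hk1, hk2⟩ := h.comp g hg1
  have hfk : BI X o r1 G (f (k o)) (fun x => f (k x)) := by
    have h0 : BI X o (0 + r1) G (φ (a⁻¹ o)) f := by rw [zero_add]; exact hf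
    exact h0.comp_aut k (by rw [hk1]; exact mem_ball_self o 0)
  refine ⟨fun x => f (k x), hfk, ?_, fun x hx => ?_⟩
  · show f (k o) = _
    rw [hk1, hf.1]
  · show f (k x) = _
    rw [← hk2 x (ball_mono (by omega) hx)]
    exact hg2 x (ball_mono (by omega) hx)

/-- freeness -/
theorem Setup.free (h : Setup X o M c m0 L r0 r1) {a : X ≃g X} (ha : a⁻¹ o ∈ ball X o L)
    {φ : W → V} (hφ : BI X o r1 G (φ o) φ) (ht : Tr M o m0 a φ φ) : a ∈ M := by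
  obtain ⟨n, hn, hx⟩ := ht
  have hle0 := h.le0
  have hle1 := h.le1
  have h1 : a⁻¹ * n ∈ M := by
    apply h.stab
    intro x hxm
    have q1 : n x ∈ ball X o (m0 + c) := ball_trans hxm (h.small n hn x)
    have q2 : a⁻¹ (n x) ∈ ball X o (L + (m0 + c)) := ball_trans ha (aut_mem a⁻¹ q1)
    exact (hφ.2.1 (ball_mono (by omega) hxm) (ball_mono (by omega) q2) (hx x hxm)).symm
  have h2 := M.mul_mem h1 (M.inv_mem hn)
  have e : a⁻¹ * n * n⁻¹ = a⁻¹ := by group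
  rw [e] at h2
  exact (Subgroup.inv_mem_iff M).1 h2

end Pool.Agent.H61.UC
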